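import Pool.Agent.MP_61ef33_al.Air.St

set_option autoImplicit false

namespace Pool.Agent.MP_61ef33_al.Air

open Finset
open scoped ENNReal

theorem int_Cnt : ∑' z : ℤ, ENNReal.ofReal (Real.exp (-(z.natAbs : ℝ))) ≠ ⊤ := by
  have h : Summable fun z : ℤ => Real.exp (-(z.natAbs : ℝ)) := by
    refine Summable.of_nat_of_neg ?_ ?_
    · simpa using Real.summable_exp_neg_nat
    · simpa using Real.summable_exp_neg_nat
  rw [← ENNReal.ofReal_tsum_of_nonneg (fun _ => (Real.exp_pos _).le) h]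
  exact ENNReal.ofReal_ne_top

theorem pi_Cnt (u : ℤ → ℝ≥0∞) (n : ℕ) : ∑' f : Fin n → ℤ, ∏ i, u (f i) = (∑' z, u z) ^ n := by
  induction n with
  | zero => simp
  | succ n ih =>
    rw [← (Fin.consEquiv fun _ : Fin (n + 1) => ℤ).tsum_eq, ENNReal.tsum_prod', pow_succ', ← ih,
      ← ENNReal.tsum_mul_right]
    refine tsum_congr fun a => ?_
    rw [← ENNReal.tsum_mul_left]
    refine tsum_congr fun f => ?_
    simp [Fin.prod_univ_succ, Fin.consEquiv]

theorem sSum : SSum := by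
  intro k
  set u : ℤ → ℝ≥0∞ := fun z => ENNReal.ofReal (Real.exp (-(z.natAbs : ℝ))) with hu
  have e : ∀ t : T k, ENNReal.ofReal (Real.exp (-(wt t : ℝ))) = u t.1 * ∏ i, u (t.2 i) := fun t => by
    simp only [hu, wt]
    rw [← ENNReal.ofReal_prod_of_nonneg fun _ _ => (Real.exp_pos _).le,
      ← ENNReal.ofReal_mul (Real.exp_pos _).le, ← Real.exp_sum, ← Real.exp_add]
    push_cast
    rw [sum_neg_distrib, neg_add]
  simp only [e]
  rw [ENNReal.tsum_prod']
  simp only [ENNReal.tsum_mul_left]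
  rw [ENNReal.tsum_mul_right, pi_Cnt]
  exact ENNReal.mul_ne_top int_Cnt (ENNReal.pow_ne_top int_Cnt)

theorem sCount : SCount := by
  rintro A X φ c ⟨w, hw, h⟩
  refine ⟨(∑' x, w x).toReal, ENNReal.toReal_nonneg, fun y => ?_⟩
  have h1 : ∀ x ∈ φ '' {a | c a ≤ y}, ENNReal.ofReal (Real.exp (-y)) ≤ w x := by
    rintro x ⟨a, ha, rfl⟩
    exact (ENNReal.ofReal_le_ofReal (Real.exp_le_exp.2 (neg_le_neg ha))).trans (h a)
  have h2 : (φ '' {a | c a ≤ y}).Finite :=
    (ENNReal.finite_const_le_of_tsum_ne_top hw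
      (ENNReal.ofReal_pos.2 (Real.exp_pos (-y))).ne').subset h1
  refine ⟨h2, ?_⟩
  rw [Set.ncard_eq_toFinset_card _ h2]
  have h3 := (card_nsmul_le_sum h2.toFinset w _ fun x hx => h1 x (h2.mem_toFinset.1 hx)).trans
    (ENNReal.sum_le_tsum _)
  have h4 := ENNReal.toReal_mono hw h3
  rw [nsmul_eq_mul, ENNReal.toReal_mul, ENNReal.toReal_natCast,
    ENNReal.toReal_ofReal (Real.exp_pos _).le, Real.exp_neg, ← div_eq_mul_inv,
    div_le_iff₀ (Real.exp_pos _)] at h4
  exact h4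

end Pool.Agent.MP_61ef33_al.Air
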