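import Pool.Agent.MP_61ef33_al.Air.St

set_option autoImplicit false

namespace Pool.Agent.MP_61ef33_al.Air

variable {Γ : Type} [Group Γ]

theorem add_Ev (m : ℕ) (g : Fin m → Γ) (h : ∀ i j, Commute (g i) (g j)) (e e' : Fin m → ℤ) :
    (List.ofFn fun i => g i ^ (e + e') i).prod =
      (List.ofFn fun i => g i ^ e i).prod * (List.ofFn fun i => g i ^ e' i).prod := by
  induction m with
  | zero => simp
  | succ m ih =>
    have h1 := ih (fun i => g i.succ) (fun i j => h _ _) (fun i => e i.succ) fun i => e' i.succ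
    have h2 : Commute (g 0 ^ e' 0) (List.ofFn fun i : Fin m => g i.succ ^ e i.succ).prod :=
      Commute.list_prod_right _ _ fun y hy => by
        obtain ⟨i, rfl⟩ := List.mem_ofFn.1 hy
        exact (h _ _).zpow_zpow _ _
    simp only [List.ofFn_succ, List.prod_cons, Pi.add_apply] at h1 ⊢
    rw [h1, zpow_add, mul_assoc, mul_assoc, ← mul_assoc (g 0 ^ e' 0), h2.eq, mul_assoc]

theorem single_Ev (m : ℕ) (g : Fin m → Γ) (j : Fin m) (z : ℤ) :
    (List.ofFn fun i => g i ^ (Pi.single j z : Fin m → ℤ) i).prod = g j ^ z := by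
  rw [List.ofFn_eq_map, List.prod_map_eq_pow_single j _ fun i hi _ => by
    rw [Pi.single_eq_of_ne hi, zpow_zero], List.count_eq_one_of_mem (List.nodup_finRange m)
    (List.mem_finRange j), pow_one, Pi.single_eq_same]

variable {k : ℕ} (A : SS Γ k)

theorem comm_Ev (i : Fin (k + 1)) : ∀ j, Commute (A.b i) (A.b j) := by
  induction i using Fin.reverseInduction with
  | last =>
    intro j
    induction j using Fin.lastCases with
    | last => exact Commute.refl _
    | cast j => rw [A.hl, A.hb]; exact (A.comm _ _).symm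
  | cast i ih =>
    intro j
    induction j using Fin.lastCases with
    | last => rw [A.hl, A.hb]; exact A.comm _ _
    | cast j => rw [A.hb, A.hb]; exact (ih _).map A.L

theorem Badd_Ev (e e' : Fin (k + 1) → ℤ) : A.B (e + e') = A.B e * A.B e' :=
  add_Ev _ _ (comm_Ev A) e e'

theorem Bzero_Ev : A.B 0 = 1 := by simp [SS.B]

theorem Bsplit_Ev (e : Fin (k + 1) → ℤ) :
    A.B e = A.L (A.B (Fin.cons 0 (Fin.init e))) * A.R (A.x ^ e (Fin.last k)) := by
  unfold SS.B
  rw [List.ofFn_succ', List.prod_concat, List.ofFn_succ, List.prod_cons, Fin.cons_zero, zpow_zero,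
    one_mul, map_list_prod, List.map_ofFn, A.hl, map_zpow]
  congr 3
  funext i
  simp [A.hb, Fin.init]

theorem xpow_Ev (l : ℤ) : A.x ^ l = A.L (A.b 0 ^ hf true l) * A.R (A.b 0 ^ hf false l) *
    if od l then A.s else 1 := by
  have c : Commute (A.L (A.b 0)) (A.R (A.b 0)) := A.comm _ _
  have h2 : A.x ^ (2 : ℤ) = A.L (A.b 0) * A.R (A.b 0) := by
    rw [zpow_two]
    conv_lhs => rw [A.hx]
    rw [A.comm]
    conv_lhs => enter [1]; rw [A.sL]
    rw [mul_assoc, ← mul_assoc A.s, A.ss, one_mul]
  obtain ⟨j, rfl | rfl⟩ := Int.even_or_odd' l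
  · have e1 : hf true (2 * j) = j := by simp [hf]
    have e2 : hf false (2 * j) = j := by simp only [hf, Bool.false_eq_true, if_false]; omega
    have e3 : od (2 * j) = false := by simp [od]
    rw [e1, e2, e3, zpow_mul, h2, c.mul_zpow, map_zpow, map_zpow]
    simp
  · have e1 : hf true (2 * j + 1) = j := by simp only [hf, if_true]; omega
    have e2 : hf false (2 * j + 1) = j + 1 := by
      simp only [hf, Bool.false_eq_true, if_false]; omega
    have e3 : od (2 * j + 1) = true := by simp [od]
    rw [e1, e2, e3, zpow_add_one, zpow_mul, h2, c.mul_zpow, zpow_add_one, map_mul, map_zpow,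
      map_zpow, A.hx, A.sL, if_pos rfl]
    simp only [mul_assoc]

theorem ch_Ev (p : Bool) (W : List (T k)) :
    A.ev (ch p W) = A.B (D p W).1 * A.ev (D p W).2 := by
  simp [ch, SS.ev]

theorem cons_Ev (p : Bool) (t : T k) (W : List (T k)) : A.ev (ch p (t :: W)) =
    A.b 0 ^ hf p t.1 * if xor p (od t.1) then A.B (Fin.cons 0 (Fin.init t.2)) * A.ev (ch true W)
      else A.x ^ t.2 (Fin.last k) * A.ev (ch false W) := by
  have s1 : ∀ z : ℤ, A.B (Pi.single 0 z) = A.b 0 ^ z := single_Ev _ _ 0
  have e : (Fin.cons (hf p t.1) (Fin.init t.2) : Fin (k + 1) → ℤ) =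
      Pi.single 0 (hf p t.1) + Fin.cons 0 (Fin.init t.2) := by
    funext i
    refine Fin.cases ?_ (fun i => ?_) i <;> simp
  rw [ch_Ev, ch_Ev, ch_Ev, D]
  split_ifs with h1 h2
  · simp only [e, Badd_Ev, s1, mul_assoc]
  · simp only [Badd_Ev, s1, mul_assoc, h2, zpow_zero, one_mul]
  · simp only [s1, SS.ev, List.map_cons, List.prod_cons, mul_assoc]

theorem sEv : SEv := by
  intro Γ _ k A
  refine ⟨fun i z => single_Ev _ _ i z, fun W => ?_⟩
  induction W with
  | nil => rw [ch_Ev, ch_Ev]; simp [D, Bzero_Ev, SS.ev, par]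
  | cons t W ih =>
    have e : A.ev (t :: W) = A.x ^ t.1 * A.B t.2 * A.ev W := by simp [SS.ev]
    have c : ∀ g h u, A.R h * (A.L g * u) = A.L g * (A.R h * u) := fun g h u => by
      rw [← mul_assoc, ← A.comm, mul_assoc]
    have c1 : ∀ g u, A.s * (A.L g * u) = A.R g * (A.s * u) := fun g u => by
      rw [← mul_assoc, A.sL, mul_assoc]
    have c2 : ∀ g u, A.s * (A.R g * u) = A.L g * (A.s * u) := fun g u => by
      rw [← mul_assoc, A.sR, mul_assoc]
    rw [e, ih, cons_Ev, cons_Ev, xpow_Ev A t.1, Bsplit_Ev A t.2, par]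
    generalize A.B (Fin.cons 0 (Fin.init t.2)) = u
    generalize A.x ^ t.2 (Fin.last k) = v
    generalize A.ev (ch true W) = w1
    generalize A.ev (ch false W) = w2
    generalize A.b 0 ^ hf true t.1 = z1
    generalize A.b 0 ^ hf false t.1 = z2
    cases od t.1
    · simp only [Bool.false_eq_true, if_false, Bool.xor_false, Bool.false_xor, if_true, map_mul,
        mul_assoc, one_mul, mul_one, c]
    · have e2 : (if (xor true (par W)) = true then A.s else 1) =
          A.s * if par W then A.s else 1 := by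
        cases par W <;> simp [A.ss]
      rw [e2]
      simp only [Bool.false_eq_true, if_false, Bool.xor_self, Bool.false_xor, if_true, map_mul,
        mul_assoc, c, c1, c2]

end Pool.Agent.MP_61ef33_al.Air
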