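import Pool.Agent.MP_61ef33_al.Air.St

set_option autoImplicit false

namespace Pool.Agent.MP_61ef33_al.Air

open Finset

/-- the rounded quotient -/
def qu_Id (M a : ℤ) : ℤ := (a + M / 2) / M

theorem qu_inj_Id {M a a' : ℤ} (h1 : a % M = a' % M) (h2 : qu_Id M a = qu_Id M a') : a = a' := by
  have e1 := Int.mul_ediv_add_emod (a + M / 2) M
  have e2 := Int.mul_ediv_add_emod (a' + M / 2) M
  have e3 : (a + M / 2) % M = (a' + M / 2) % M := by
    rw [Int.add_emod, h1, ← Int.add_emod]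
  unfold qu_Id at h2
  rw [h2, e3] at e1
  omega

theorem qu_le_Id {N : ℕ} (hN : 0 < N) (a : ℤ) :
    N * (qu_Id (2 * N) a).natAbs ≤ a.natAbs := by
  have h0 : (0 : ℤ) < 2 * N := by omega
  have e0 : (2 * N : ℤ) / 2 = N := by omega
  have e1 := Int.mul_ediv_add_emod (a + N) (2 * N)
  have e2 := Int.emod_nonneg (a + N) h0.ne'
  have e3 := Int.emod_lt_of_pos (a + N) h0
  unfold qu_Id
  rw [e0]
  generalize (a + N) / (2 * N) = u at e1 ⊢
  generalize (a + N) % (2 * N) = v at e1 e2 e3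
  zify
  rcases lt_trichotomy u 0 with h | h | h
  · have : (N : ℤ) * 1 ≤ N * (-u) := mul_le_mul_of_nonneg_left (by omega) (by omega)
    rw [abs_of_neg h]
    refine le_trans ?_ (neg_le_abs a)
    nlinarith
  · simp [h]
  · have : (N : ℤ) * 1 ≤ N * u := mul_le_mul_of_nonneg_left (by omega) (by omega)
    rw [abs_of_pos h]
    refine le_trans ?_ (le_abs_self a)
    nlinarith

theorem md_Id (k l i : ℕ) (a : ℤ) :
    2 ^ l * (qu_Id (Md k ((k + 2) * (l + 1)) i) a).natAbs ≤ a.natAbs := by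
  have e : Md k ((k + 2) * (l + 1)) i = 2 * ((2 ^ (l + i / (k + 2)) : ℕ) : ℤ) := by
    unfold Md
    rw [Nat.mul_add_div (by omega)]
    push_cast
    ring
  rw [e]
  refine le_trans (Nat.mul_le_mul_right _ ?_) (qu_le_Id (by positivity) a)
  exact Nat.pow_le_pow_right (by norm_num) (Nat.le_add_right _ _)

/-- the quotients of a syllable -/
def quo_Id {k : ℕ} (d : ℕ) (t : T k) : T k :=
  (qu_Id (Md k d (k + 1)) t.1, fun i => qu_Id (Md k d i) (t.2 i))

theorem wt_quo_Id {k : ℕ} (l : ℕ) (t : T k) :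
    2 ^ l * wt (quo_Id ((k + 2) * (l + 1)) t) ≤ wt t := by
  unfold wt
  rw [mul_add, mul_sum]
  exact add_le_add (md_Id k l _ _) (sum_le_sum fun i _ => md_Id k l _ _)

theorem Wt_quo_Id {k : ℕ} (l : ℕ) (W : List (T k)) :
    2 ^ l * ((W.map (quo_Id ((k + 2) * (l + 1)))).map wt).sum ≤ Wt W := by
  unfold Wt
  induction W with
  | nil => simp
  | cons t W ih =>
    rw [List.map_cons, List.map_cons, List.map_cons, List.sum_cons, List.sum_cons, mul_add]
    exact add_le_add (wt_quo_Id l t) ih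

theorem inj_Id {k : ℕ} (d : ℕ) : ∀ W W' : List (T k), W.map (res d) = W'.map (res d) →
    W.map (quo_Id d) = W'.map (quo_Id d) → W = W'
  | [], [], _, _ => rfl
  | [], _ :: _, h, _ => by simp at h
  | _ :: _, [], h, _ => by simp at h
  | t :: W, t' :: W', h, h' => by
    simp only [List.map_cons, List.cons.injEq] at h h'
    rw [inj_Id d W W' h.2 h'.2]
    congr 1
    refine Prod.ext (qu_inj_Id (congrArg Prod.fst h.1) (congrArg Prod.fst h'.1)) ?_
    funext i
    exact qu_inj_Id (congrFun (congrArg Prod.snd h.1) i) (congrFun (congrArg Prod.snd h'.1) i)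

theorem sId (hS : SSparse) (hU : SSum) (hR : SRes) : SId := by
  intro k hk ε hε
  obtain ⟨K, hK, hs⟩ := hS (T k) 0 wt (hU k) (fun t ht => by
    by_contra h
    have h0 : wt t = 0 := by omega
    unfold wt at h0
    rw [Nat.add_eq_zero_iff, sum_eq_zero_iff] at h0
    exact ht (Prod.ext (Int.natAbs_eq_zero.1 h0.1)
      (funext fun i => Int.natAbs_eq_zero.1 (h0.2 i (mem_univ i))))) (ε / 2) (by positivity)
  obtain ⟨l, hl⟩ := pow_unbounded_of_one_lt (K / ε) (one_lt_two (α := ℝ))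
  rw [div_lt_iff₀ hε] at hl
  obtain ⟨κ, hκ, hr⟩ := hR k hk ((k + 2) * (l + 1)) (ε / 2) (by positivity)
  refine ⟨(k + 2) * (l + 1) + 1, κ, hκ,
    (hr.pair (hs.comp (List.map (quo_Id ((k + 2) * (l + 1)))))).det
      (fun W W' h => inj_Id _ W W' (congrArg Prod.fst h) (congrArg Prod.snd h)) 0 fun W => ?_⟩
  have h1 : (2 : ℝ) ^ l * (((W.map (quo_Id ((k + 2) * (l + 1)))).map wt).sum : ℕ) ≤ Wt W := by
    exact_mod_cast Wt_quo_Id l W
  rw [List.length_map]
  generalize ((W.map (quo_Id ((k + 2) * (l + 1)))).map wt).sum = s at h1 ⊢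
  have h2 : K * s ≤ 2 ^ l * ε * s := mul_le_mul_of_nonneg_right hl.le (Nat.cast_nonneg s)
  nlinarith [mul_le_mul_of_nonneg_left h1 hε.le]

end Pool.Agent.MP_61ef33_al.Air
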