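import Pool.Agent.MP_61ef33_al.Air.St

set_option autoImplicit false

namespace Pool.Agent.MP_61ef33_al.Air

variable {k : ℕ}

/-- coordinatewise congruence -/
def E_Inj (d : ℕ) (u u' : Fin (k + 1) → ℤ) : Prop :=
  ∀ i : Fin (k + 1), u i ≡ u' i [ZMOD Md k d i]

theorem res_Inj {d : ℕ} {t t' : T k} :
    res d t = res d t' ↔ t.1 ≡ t'.1 [ZMOD Md k d (k + 1)] ∧ E_Inj d t.2 t'.2 := by
  unfold res E_Inj Int.ModEq
  rw [Prod.mk.injEq, funext_iff]

theorem md1_Inj (d i : ℕ) : Md k (d + 1) i = Md k d (i + 1) := by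
  unfold Md
  rw [show d + 1 + i = d + (i + 1) by omega]

theorem md2_Inj (d : ℕ) : Md k (d + 1) (k + 1) = 2 * Md k d 0 := by
  unfold Md
  rw [show d + 1 + (k + 1) = d + (k + 2) by omega, Nat.add_div_right _ (by omega), add_zero,
    pow_succ, mul_comm]

theorem cancel_Inj {d : ℕ} {a a' u u' : Fin (k + 1) → ℤ} (h : E_Inj d a a')
    (h' : E_Inj d (a + u) (a' + u')) : E_Inj d u u' := fun i =>
  Int.ModEq.add_left_cancel (h i) (h' i)

theorem hf_Inj {M l l' : ℤ} (h : l ≡ l' [ZMOD 2 * M]) (p : Bool) :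
    od l = od l' ∧ hf p l ≡ hf p l' [ZMOD M] := by
  obtain ⟨c, hc⟩ := h.dvd
  have e : l' = l + (M * c) * 2 := by linarith
  refine ⟨?_, Int.modEq_iff_dvd.2 ⟨c, ?_⟩⟩
  · unfold od
    rw [e, Int.add_mul_emod_self_right]
  · generalize M * c = N at e ⊢
    unfold hf
    split_ifs <;> omega

theorem head_Inj {W : List (T k)} (h : W.head?.all reg = true) (i : Fin k) :
    (D true W).1 i.succ = 0 := by
  cases W with
  | nil => rfl
  | cons t W =>
    have h1 : reg t = true := by simpa using h
    simp only [reg, Bool.and_eq_true, decide_eq_true_eq] at h1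
    simp [D, h1.1, h1.2]

/-- the hypothesis on the sections -/
def H_Inj (d : ℕ) (W W' : List (T k)) : Prop :=
  ∀ p, E_Inj d (D p W).1 (D p W').1 ∧ (D p W).2.map (res d) = (D p W').2.map (res d)

theorem stepA_Inj {d : ℕ} {t t' : T k} {W W' : List (T k)} (h1 : reg t = true)
    (h1' : reg t' = true) (h2 : W.head?.all reg = true) (h2' : W'.head?.all reg = true)
    (h : H_Inj d (t :: W) (t' :: W')) : res (d + 1) t = res (d + 1) t' := by
  simp only [reg, Bool.and_eq_true, decide_eq_true_eq] at h1 h1'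
  obtain ⟨a1, a2⟩ := h true
  obtain ⟨b1, -⟩ := h false
  simp only [D, h1.1, h1'.1, h1.2, h1'.2, Bool.xor_self, Bool.false_eq_true, if_false,
    List.map_cons, List.cons.injEq, Bool.false_xor, if_true] at a1 a2 b1
  refine res_Inj.2 ⟨?_, fun i => ?_⟩
  · have c1 := a1 0
    simp only [Pi.single_eq_same, hf, if_true, Fin.val_zero] at c1
    rw [md2_Inj]
    obtain ⟨c, hc⟩ := c1.dvd
    have o1 : t.1 % 2 = 1 := by simpa [od] using h1.1
    have o2 : t'.1 % 2 = 1 := by simpa [od] using h1'.1
    refine Int.modEq_iff_dvd.2 ⟨c, ?_⟩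
    rw [mul_assoc, ← hc]
    omega
  · rw [md1_Inj]
    refine Fin.lastCases ?_ (fun j => ?_) i
    · exact (res_Inj.1 a2.1).1
    · have c1 := b1 j.succ
      simp only [Pi.add_apply, head_Inj h2, head_Inj h2', add_zero, Fin.cons_succ] at c1
      exact c1

theorem stepB_Inj {d : ℕ} {t t' : T k} {W W' : List (T k)} (h1 : res (d + 1) t = res (d + 1) t')
    (h2 : t.2 (Fin.last k) = 0 ↔ t'.2 (Fin.last k) = 0) (h : H_Inj d (t :: W) (t' :: W')) :
    H_Inj d W W' := by
  obtain ⟨a1, a2⟩ := res_Inj.1 h1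
  rw [md2_Inj] at a1
  intro q
  obtain ⟨o, f⟩ := hf_Inj a1 (xor q (od t.1))
  obtain ⟨b1, b2⟩ := h (xor q (od t.1))
  have x1 : xor (xor q (od t.1)) (od t.1) = q := by simp
  simp only [D, ← o, x1] at b1 b2
  cases q with
  | true =>
    simp only [if_true] at b1 b2
    refine ⟨cancel_Inj (fun i => ?_) b1, b2⟩
    refine Fin.cases ?_ (fun j => ?_) i
    · exact f
    · have := a2 j.castSucc
      rw [md1_Inj] at this
      exact this
  | false =>
    by_cases h0 : t.2 (Fin.last k) = 0
    · simp only [Bool.false_eq_true, if_false, h0, h2.1 h0, if_true] at b1 b2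
      refine ⟨cancel_Inj (fun i => ?_) b1, b2⟩
      refine Fin.cases ?_ (fun j => ?_) i
      · simpa using f
      · simp
    · simp only [Bool.false_eq_true, if_false, h0, mt h2.2 h0, List.map_cons,
        List.cons.injEq] at b2
      exact ⟨(res_Inj.1 b2.1).2, b2.2⟩

theorem main_Inj (d : ℕ) (W : List (T k)) : ∀ W' : List (T k),
    side (d + 1) W = side (d + 1) W' → H_Inj d W W' →
      W.map (res (d + 1)) = W'.map (res (d + 1)) := by
  induction W with
  | nil =>
    intro W' hs _
    cases W' with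
    | nil => rfl
    | cons t' W' => simp [side] at hs
  | cons t W ih =>
    intro W' hs h
    cases W' with
    | nil => simp [side] at hs
    | cons t' W' =>
      simp only [side, List.cons.injEq] at hs
      obtain ⟨s1, s2⟩ := hs
      have key : res (d + 1) t = res (d + 1) t' ∧
          (t.2 (Fin.last k) = 0 ↔ t'.2 (Fin.last k) = 0) := by
        split_ifs at s1 with c c' c'
        · rw [Bool.and_eq_true] at c c'
          refine ⟨stepA_Inj c.1 c'.1 c.2 c'.2 h, ?_⟩
          have r1 := c.1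
          have r2 := c'.1
          simp only [reg, Bool.and_eq_true, decide_eq_true_eq] at r1 r2
          exact iff_of_false r1.2 r2.2
        · simpa using s1
      rw [List.map_cons, List.map_cons, key.1, ih W' s2 (stepB_Inj key.1 key.2 h)]

theorem sInj : SInj := by
  intro k d W W' hs h
  refine main_Inj d W W' hs fun p => ?_
  have := h p
  simp only [ch, List.map_cons, List.cons.injEq] at this
  exact ⟨(res_Inj.1 this.1).2, this.2⟩

end Pool.Agent.MP_61ef33_al.Air
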