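import Pool.Agent.MP_61ef33_al.Air.St

/- From the two counting bounds to intermediate growth. -/

set_option autoImplicit false

namespace Pool.Agent.MP_61ef33_al.Air

open Filter

theorem poly_Int {γ : ℕ → ℕ} (hm : Monotone γ)
    (h : ∀ j : ℕ, ∃ c : ℕ, ∀ r : ℕ, (r + 1) ^ j ≤ γ (c * (r + 1))) (d : ℕ) :
    Tendsto (fun n : ℕ => (γ n : ℝ) / (n : ℝ) ^ d) atTop atTop := by
  obtain ⟨c, hc⟩ := h (d + 1)
  have hlim : Tendsto (fun n : ℕ => (n : ℝ) / (2 * (c + 1)) ^ (d + 1)) atTop atTop :=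
    tendsto_natCast_atTop_atTop.atTop_div_const (by positivity)
  refine tendsto_atTop_mono' _ ?_ hlim
  filter_upwards [eventually_ge_atTop (c + 1)] with n hn
  have hn0 : (0 : ℝ) < n := by exact_mod_cast (by omega : 0 < n)
  obtain ⟨r, hr⟩ : ∃ r, n / (c + 1) = r + 1 :=
    ⟨n / (c + 1) - 1, by have := Nat.div_pos hn (by omega); omega⟩
  have h1 : c * (r + 1) ≤ n := by
    have := Nat.div_mul_le_self n (c + 1)
    rw [hr] at this; nlinarith
  have h2 : n ≤ 2 * (c + 1) * (r + 1) := by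
    have := Nat.lt_div_mul_add (a := n) (show 0 < c + 1 by omega)
    rw [hr] at this; nlinarith
  have h3 : n ^ (d + 1) ≤ (2 * (c + 1)) ^ (d + 1) * γ n := by
    calc n ^ (d + 1) ≤ (2 * (c + 1) * (r + 1)) ^ (d + 1) := Nat.pow_le_pow_left h2 _
      _ = (2 * (c + 1)) ^ (d + 1) * (r + 1) ^ (d + 1) := mul_pow _ _ _
      _ ≤ _ := Nat.mul_le_mul_left _ ((hc r).trans (hm h1))
  rw [div_le_div_iff₀ (by positivity) (by positivity), ← pow_succ', mul_comm]
  exact_mod_cast h3

theorem subexp_Int {γ : ℕ → ℕ}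
    (h : ∀ δ : ℝ, 0 < δ → ∃ K : ℝ, ∀ n : ℕ, (γ n : ℝ) ≤ K * Real.exp (δ * n)) (c : ℝ) (hc : 0 < c) :
    Tendsto (fun n : ℕ => (γ n : ℝ) / Real.exp (c * n)) atTop (nhds 0) := by
  obtain ⟨K, hK⟩ := h (c / 2) (by linarith)
  have hlim : Tendsto (fun n : ℕ => K * Real.exp (-(c / 2 * n))) atTop (nhds 0) := by
    have := (Real.tendsto_exp_neg_atTop_nhds_zero.comp
      (tendsto_natCast_atTop_atTop.const_mul_atTop (show 0 < c / 2 by linarith))).const_mul K
    simpa using this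
  refine squeeze_zero (fun n => by positivity) (fun n => ?_) hlim
  rw [div_le_iff₀ (Real.exp_pos _), mul_assoc, ← Real.exp_add]
  refine (hK n).trans (le_of_eq ?_)
  congr 2; ring

section
variable {G : Type} [Group G] {S : Finset G}

theorem mono_Int {m n : ℕ} (h : m ≤ n) : ball S m ⊆ ball S n :=
  fun _ ⟨l, h1, h2⟩ => ⟨l, h1.trans h, h2⟩

theorem mul_Int {m n : ℕ} {g h : G} (hg : g ∈ ball S m) (hh : h ∈ ball S n) :
    g * h ∈ ball S (m + n) := by
  obtain ⟨l, a1, a2, rfl⟩ := hg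
  obtain ⟨l', b1, b2, rfl⟩ := hh
  exact ⟨l ++ l', by rw [List.length_append]; omega,
    fun x hx => (List.mem_append.1 hx).elim (a2 x) (b2 x), List.prod_append⟩

theorem inv_Int {m : ℕ} {g : G} (hg : g ∈ ball S m) : g⁻¹ ∈ ball S m := by
  obtain ⟨l, a1, a2, rfl⟩ := hg
  refine ⟨(l.map fun x => x⁻¹).reverse, by simpa using a1, fun x hx => ?_,
    (List.prod_inv_reverse l).symm⟩
  obtain ⟨y, hy, rfl⟩ := List.mem_map.1 (List.mem_reverse.1 hx)
  rw [inv_inv]
  exact (a2 y hy).symm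

theorem one_Int (m : ℕ) : (1 : G) ∈ ball S m := ⟨[], Nat.zero_le m, by simp, rfl⟩

theorem prod_Int {m : ℕ} (l : List G) (h : ∀ g ∈ l, g ∈ ball S m) :
    l.prod ∈ ball S (l.length * m) := by
  induction l with
  | nil => exact one_Int _
  | cons g l ih =>
    rw [List.prod_cons, List.length_cons, add_mul, one_mul, add_comm]
    exact mul_Int (h g (by simp)) (ih fun x hx => h x (by simp [hx]))

theorem pow_Int {m : ℕ} {g : G} (h : g ∈ ball S m) (e : ℕ) : g ^ e ∈ ball S (e * m) := by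
  have := prod_Int (List.replicate e g) fun x hx => (List.eq_of_mem_replicate hx).symm ▸ h
  rwa [List.prod_replicate, List.length_replicate] at this

theorem all_Int (hS : Subgroup.closure (S : Set G) = ⊤) (g : G) : ∃ M, g ∈ ball S M := by
  have hg : g ∈ Subgroup.closure (S : Set G) := hS ▸ Subgroup.mem_top g
  induction hg using Subgroup.closure_induction with
  | mem x hx => exact ⟨1, [x], le_rfl, by simpa using Or.inl hx, by simp⟩
  | one => exact ⟨0, one_Int 0⟩
  | mul x y _ _ hx hy => exact ⟨_, mul_Int hx.choose_spec hy.choose_spec⟩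
  | inv x _ hx => exact ⟨_, inv_Int hx.choose_spec⟩

theorem low_Int (hS : Subgroup.closure (S : Set G) = ⊤) (hf : ∀ n, (ball S n).Finite) {j : ℕ}
    (l : Fin j → G)
    (hl : Function.Injective fun e : Fin j → ℕ => (List.ofFn fun i => l i ^ e i).prod) :
    ∃ c : ℕ, ∀ r : ℕ, (r + 1) ^ j ≤ growth S (c * (r + 1)) := by
  choose M hM using fun i => all_Int hS (l i)
  refine ⟨j * ∑ i, M i, fun r => ?_⟩
  have h1 : (Set.univ : Set (Fin j → Fin (r + 1))).ncard ≤ growth S ((j * ∑ i, M i) * (r + 1)) := by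
    refine Set.ncard_le_ncard_of_injOn (fun e => (List.ofFn fun i => l i ^ (e i : ℕ)).prod)
      (fun e _ => ?_) (fun e _ e' _ h => funext fun i => Fin.ext (congrFun (hl h) i)) (hf _)
    have h2 := prod_Int (S := S) (m := (∑ i, M i) * (r + 1)) (List.ofFn fun i => l i ^ (e i : ℕ))
      fun g hg => by
        obtain ⟨i, rfl⟩ := List.mem_ofFn.1 hg
        refine mono_Int ?_ (pow_Int (hM i) _)
        rw [mul_comm]
        exact Nat.mul_le_mul (Finset.single_le_sum (fun _ _ => Nat.zero_le _) (Finset.mem_univ i))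
          (e i).2.le
    rwa [List.length_ofFn, ← mul_assoc] at h2
  simpa [Set.ncard_univ] using h1

end

theorem gen_Int (hE : SEv) {Γ : Type} [Group Γ] {k : ℕ} (A : SS Γ k) {g : Γ}
    (hg : g ∈ insert A.x (Set.range A.b) ∨ g⁻¹ ∈ insert A.x (Set.range A.b)) :
    ∃ t : T k, wt t = 1 ∧ A.x ^ t.1 * A.B t.2 = g := by
  have h0 : A.B 0 = 1 := by simp [SS.B]
  have h1 := (hE Γ k A).1
  have h2 : ∀ (i : Fin (k + 1)) (z : ℤ), wt ((0, Pi.single i z) : T k) = z.natAbs := fun i z => by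
    simp only [wt, Int.natAbs_zero, zero_add]
    rw [Finset.sum_eq_single i (fun j _ hj => by simp [hj]) (by simp), Pi.single_eq_same]
  rcases hg with (rfl | ⟨i, rfl⟩) | (h | ⟨i, h⟩)
  · exact ⟨(1, 0), by simp [wt], by simp [h0]⟩
  · exact ⟨(0, Pi.single i 1), h2 i 1, by simp [h1]⟩
  · exact ⟨(-1, 0), by simp [wt], by simp [h0, ← h]⟩
  · exact ⟨(0, Pi.single i (-1)), h2 i (-1), by simp [h1, h]⟩

theorem sInt (hE : SEv) (hS : SSub) (hP : SPoly) : SInt := by
  classical
  intro Γ _ k A hk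
  obtain ⟨S, hm⟩ : ∃ S : Finset A.H, ∀ g : A.H, g ∈ S ↔ g.1 ∈ insert A.x (Set.range A.b) :=
    ⟨(((Set.finite_range A.b).insert A.x).preimage Subtype.val_injective.injOn).toFinset,
      fun g => by rw [Set.Finite.mem_toFinset]; rfl⟩
  have hc : Subgroup.closure (S : Set A.H) = ⊤ := by
    rw [show (S : Set A.H) = ((↑) : A.H → Γ) ⁻¹' insert A.x (Set.range A.b) from Set.ext hm]
    exact Subgroup.closure_closure_coe_preimage
  have hb : ∀ n, Subtype.val '' ball S n ⊆ A.ev '' {W | Wt W + W.length ≤ 2 * n} := by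
    rintro n _ ⟨_, ⟨l, h1, h2, rfl⟩, rfl⟩
    induction l generalizing n with
    | nil => exact ⟨[], by simp [Wt], rfl⟩
    | cons x l ih =>
      obtain ⟨W, a1, a2⟩ := ih l.length le_rfl fun y hy => h2 y (by simp [hy])
      obtain ⟨t, b1, b2⟩ := gen_Int hE A (g := x.1) ((h2 x (by simp)).imp (hm _).1 (hm _).1)
      refine ⟨t :: W, ?_, ?_⟩
      · simp only [Set.mem_ofPred_eq, Wt, List.map_cons, List.sum_cons, List.length_cons]
          at a1 h1 ⊢
        omega
      · rw [List.prod_cons, Subgroup.coe_mul, ← a2, ← b2]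
        rfl
  have hf : ∀ n, (ball S n).Finite := fun n => by
    obtain ⟨K, hK⟩ := hS Γ k A hk 1 one_pos
    exact ((hK _).1.subset (hb n)).of_finite_image Subtype.val_injective.injOn
  refine ⟨S, hc, poly_Int (fun m n h => Set.ncard_le_ncard (mono_Int h) (hf n)) fun j => ?_,
    subexp_Int fun δ hδ => ?_⟩
  · obtain ⟨l, l1, l2⟩ := hP Γ k A hk j
    refine low_Int hc hf (fun i => ⟨l i, l1 i⟩) fun e e' h => l2 ?_
    have := congrArg A.H.subtype h
    simpa only [map_list_prod, List.map_ofFn, Function.comp_def, map_pow,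
      Subgroup.subtype_apply] using this
  · obtain ⟨K, hK⟩ := hS Γ k A hk (δ / 2) (by linarith)
    refine ⟨K, fun n => ?_⟩
    have h1 := Set.ncard_le_ncard (hb n) (hK _).1
    rw [Set.ncard_image_of_injective _ Subtype.val_injective] at h1
    refine le_trans (Nat.cast_le.2 h1) ((hK _).2.trans (le_of_eq ?_))
    push_cast
    rw [show δ / 2 * (2 * n) = δ * n by ring]

end Pool.Agent.MP_61ef33_al.Air
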