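import Pool.Agent.MP_61ef33_al.Air.St

set_option autoImplicit false

namespace Pool.Agent.MP_61ef33_al.Air

open Finset

variable {k : ℕ}

def nn_Len (a : Fin (k + 1) → ℤ) : ℕ := ∑ i, (a i).natAbs

theorem nn_add_Len (a b : Fin (k + 1) → ℤ) : nn_Len (a + b) ≤ nn_Len a + nn_Len b := by
  unfold nn_Len
  rw [← sum_add_distrib]
  exact sum_le_sum fun i _ => Int.natAbs_add_le _ _

theorem nn_single_Len (z : ℤ) : nn_Len (Pi.single 0 z : Fin (k + 1) → ℤ) = z.natAbs := by
  simp [nn_Len, Fin.sum_univ_succ]

theorem nn_cons_Len (z : ℤ) (a : Fin (k + 1) → ℤ) :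
    nn_Len (Fin.cons z (Fin.init a) : Fin (k + 1) → ℤ) + (a (Fin.last k)).natAbs =
      z.natAbs + nn_Len a := by
  unfold nn_Len
  rw [Fin.sum_univ_succ, Fin.sum_univ_castSucc (fun i => (a i).natAbs), add_assoc]
  rfl

theorem hf_Len (l : ℤ) : (hf true l).natAbs + (hf false l).natAbs = l.natAbs := by
  simp only [hf, if_true, Bool.false_eq_true, if_false]
  omega

theorem wt_cons_Len (t : T k) (W : List (T k)) :
    Wt (t :: W) = t.1.natAbs + nn_Len t.2 + Wt W := by
  simp [Wt, wt, nn_Len]

theorem D_Len (W : List (T k)) :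
    nn_Len (D true W).1 + Wt (D true W).2 + (nn_Len (D false W).1 + Wt (D false W).2) ≤ Wt W ∧
      (D true W).2.length + (D false W).2.length + Z W = W.length := by
  induction W with
  | nil => simp [D, nn_Len, Wt, Z]
  | cons t W ih =>
    obtain ⟨ih1, ih2⟩ := ih
    have h0 := hf_Len t.1
    have a1 := fun p => nn_add_Len (Fin.cons (hf p t.1) (Fin.init t.2)) (D true W).1
    have a2 := fun p => nn_add_Len (Pi.single 0 (hf p t.1)) (D false W).1
    have a3 := fun p => nn_cons_Len (hf p t.1) t.2
    simp only [nn_single_Len] at a2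
    have b1 := a1 true
    have b2 := a1 false
    have b3 := a2 true
    have b4 := a2 false
    have b5 := a3 true
    have b6 := a3 false
    have hZ : Z (t :: W) = Z W + if t.2 (Fin.last k) = 0 then 1 else 0 := by
      simp [Z, List.countP_cons]
    rw [hZ, wt_cons_Len]
    by_cases hz : t.2 (Fin.last k) = 0 <;> cases ho : od t.1 <;>
      simp only [D, ho, hz, Bool.xor_false, Bool.xor_true, Bool.not_true, Bool.not_false, if_true,
        if_false, Bool.false_eq_true, wt_cons_Len, nn_single_Len, List.length_cons] <;>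
      omega

theorem sLen : SLen := by
  intro k
  have h2 : ∀ W : List (T k),
      (ch true W).length + (ch false W).length + Z W = W.length + 2 := fun W => by
    have := (D_Len W).2
    simp only [ch, List.length_cons]
    omega
  have h3 : ∀ (j m : ℕ) (W : List (T k)), Ls (j + m) W = Ls j W + Lk m j W := by
    intro j m
    induction j with
    | zero => intro W; simp [Ls, Lk]
    | succ j ih =>
      intro W
      rw [show j + 1 + m = j + m + 1 by omega]
      simp only [Ls, Lk, ih]
      omega
  have h4 : ∀ (d : ℕ) (W : List (T k)), Ls d W + 2 ≤ W.length + 2 ^ (d + 1) := by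
    intro d
    induction d with
    | zero => intro W; simp [Ls]
    | succ d ih =>
      intro W
      have a := ih (ch true W)
      have b := ih (ch false W)
      have c := h2 W
      rw [Ls, pow_succ 2 (d + 1)]
      omega
  refine fun W => ⟨?_, h2 W, fun j m => h3 j m W, fun d => by have := h4 d W; omega⟩
  have := (D_Len W).1
  simp only [ch, wt_cons_Len, Int.natAbs_zero]
  omega

end Pool.Agent.MP_61ef33_al.Air
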