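import Pool.Agent.MP_61ef33_al.Air.St

set_option autoImplicit false

namespace Pool.Agent.MP_61ef33_al.Air

open Polynomial unitInterval Set

theorem homotopy_Link {A : Type} [TopologicalSpace A] (H : I × A → ℂ) (hH : Continuous H)
    (h0 : ∀ p, H p ≠ 0) (g : A → ℂ) (hg : Continuous g) (hg0 : ∀ a, g a ^ 2 = H (0, a)) :
    ∃ R : I × A → ℂ, Continuous R ∧ (∀ p, R p ^ 2 = H p) ∧ ∀ a, R (0, a) = g a := by
  have cov := isCoveringMap_npow (𝕜 := ℂ) 2 (by norm_num)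
  have hgne : ∀ a, g a ≠ 0 := fun a e => h0 (0, a) (by rw [← hg0, e]; simp)
  let H' : C(I × A, {x : ℂ // x ≠ 0}) := ⟨fun p => ⟨H p, h0 p⟩, by fun_prop⟩
  let g' : C(A, {x : ℂ // x ≠ 0}) := ⟨fun a => ⟨g a, hgne a⟩, by fun_prop⟩
  have e : ∀ a, H' (0, a) = (fun x : {x : ℂ // x ≠ 0} =>
      (⟨x ^ 2, pow_ne_zero 2 x.2⟩ : {x : ℂ // x ≠ 0})) (g' a) := fun a => Subtype.ext (hg0 a).symm
  refine ⟨fun p => (cov.liftHomotopy H' g' e p).1, by fun_prop, fun p => ?_, fun a => ?_⟩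
  · exact congrArg Subtype.val (congrFun (cov.liftHomotopy_lifts H' g' e) p)
  · exact congrArg Subtype.val (cov.liftHomotopy_zero H' g' e a)

theorem sqrt_Link {γ : I → ℂ} (hγ : Continuous γ) (h0 : ∀ τ, γ τ ≠ 0) {v0 : ℂ}
    (hv : v0 ^ 2 = γ 0) : ∃ v : I → ℂ, Continuous v ∧ (∀ τ, v τ ^ 2 = γ τ) ∧ v 0 = v0 := by
  obtain ⟨R, h1, h2, h3⟩ := homotopy_Link (A := Unit) (fun p => γ p.1) (by fun_prop)
    (fun p => h0 _) (fun _ => v0) continuous_const (fun _ => hv)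
  exact ⟨fun τ => R (τ, ()), by fun_prop, fun τ => h2 _, h3 _⟩

theorem eval_Link (c : ℝ) : (fun x => (X ^ 2 + C (c : ℂ) : ℂ[X]).eval x) = qc c := by
  funext x; simp [qc]

variable {n : ℕ} {c : ℝ} {p : ℕ → ℝ}

theorem top_Link (h : Ord n c p) : qc c c = p n := by
  rw [qc, ← h.top]; push_cast; rfl

theorem nx_Link (h : Ord n c p) {j : ℕ} (h1 : 1 ≤ j) (h2 : j < n) : qc c (p (j + 1)) = p j := by
  rw [qc, ← h.nx j h1 h2]; push_cast; rfl

theorem stable_Link (h : Ord n c p) {i : ℕ} (h1 : 1 ≤ i) (h2 : i ≤ n) :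
    ∃ j, 1 ≤ j ∧ j ≤ n ∧ qc c (p i) = p j := by
  have := h.two
  rcases h1.eq_or_lt with rfl | h3
  · exact ⟨n, by omega, le_rfl, by rw [h.one, top_Link h]⟩
  · obtain ⟨j, rfl⟩ : ∃ j, i = j + 1 := ⟨i - 1, by omega⟩
    exact ⟨j, by omega, by omega, nx_Link h (by omega) (by omega)⟩

theorem post_Link (h : Ord n c p) (z : ℂ) :
    z ∉ postcrit (X ^ 2 + C (c : ℂ)) ↔ ∀ i, 1 ≤ i → i ≤ n → z ≠ p i := by
  have h2 := h.two
  have e : z ∈ postcrit (X ^ 2 + C (c : ℂ)) ↔ ∃ k, (qc c)^[k] c = z := by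
    simp only [postcrit, eval_Link, mem_ofPred_eq]
    constructor
    · rintro ⟨m, hm, w, h1, rfl⟩
      have : w = 0 := by simpa using h1
      subst this
      obtain ⟨k, rfl⟩ : ∃ k, m = k + 1 := ⟨m - 1, by omega⟩
      exact ⟨k, by simp [qc]⟩
    · rintro ⟨k, rfl⟩
      exact ⟨k + 1, by omega, 0, by simp, by simp [qc]⟩
  have a : ∀ k, ∃ i, 1 ≤ i ∧ i ≤ n ∧ (qc c)^[k] c = p i := fun k => by
    induction k with
    | zero => exact ⟨1, le_rfl, by omega, by rw [h.one]; rfl⟩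
    | succ k ih =>
      obtain ⟨i, h3, h4, h5⟩ := ih
      rw [Function.iterate_succ_apply', h5]
      exact stable_Link h h3 h4
  have b : ∀ d i, i + d = n → 1 ≤ i → ∃ k, (qc c)^[k] c = p i := fun d => by
    induction d with
    | zero => rintro i rfl -; exact ⟨1, top_Link h⟩
    | succ d ih =>
      intro i h3 h4
      obtain ⟨k, hk⟩ := ih (i + 1) (by omega) (by omega)
      exact ⟨k + 1, by rw [Function.iterate_succ_apply', hk, nx_Link h h4 (by omega)]⟩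
  rw [e]
  constructor
  · rintro h3 i h4 h5 rfl
    exact h3 (b (n - i) i (by omega) h4)
  · rintro h3 ⟨k, rfl⟩
    obtain ⟨i, h4, h5, h6⟩ := a k
    exact h3 i h4 h5 h6

theorem chart_Link {t : ℂ} (ht : ∀ i, 1 ≤ i → i ≤ n → t ≠ p i) : ∃ j ≤ n, t ∈ O n p j := by
  classical
  refine ⟨Nat.findGreatest (fun i => i = 0 ∨ p i < t.re) n, Nat.findGreatest_le n, fun e =>
    ⟨fun h0 => ?_, fun hn => ?_⟩⟩
  · exact (Nat.findGreatest_spec (P := fun i => i = 0 ∨ p i < t.re) (Nat.zero_le n)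
      (.inl rfl)).resolve_left h0
  · have h1 := (Nat.findGreatest_le (P := fun i => i = 0 ∨ p i < t.re) n).lt_of_ne hn
    have h2 := Nat.findGreatest_is_greatest (Nat.lt_succ_self _) h1
    refine (not_lt.1 fun q => h2 (.inr q)).lt_of_ne fun q => ht _ (by omega) h1 ?_
    exact Complex.ext (by simpa using q) (by simpa using e)

theorem lift_Link (h : Ord n c p) (m : ℕ) : ∀ (γ : I → ℂ), Continuous γ →
    (∀ τ i, 1 ≤ i → i ≤ n → γ τ ≠ p i) → ∀ z, (qc c)^[m] z = γ 0 →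
    ∃ Γ : I → ℂ, Continuous Γ ∧ Γ 0 = z ∧ ∀ τ, (qc c)^[m] (Γ τ) = γ τ := by
  induction m with
  | zero => exact fun γ hγ _ z hz => ⟨γ, hγ, hz.symm, fun _ => rfl⟩
  | succ m ih =>
    intro γ hγ hp z hz
    rw [Function.iterate_succ_apply', qc] at hz
    have h2 := h.two
    obtain ⟨v, v1, v2, v3⟩ := sqrt_Link (γ := fun τ => γ τ - c) (by fun_prop)
      (fun τ e => hp τ 1 le_rfl (by omega) (by rw [h.one]; exact sub_eq_zero.1 e))
      (v0 := (qc c)^[m] z) (eq_sub_of_add_eq hz)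
    have v4 : ∀ τ, qc c (v τ) = γ τ := fun τ => by rw [qc, v2, sub_add_cancel]
    obtain ⟨Γ, a1, a2, a3⟩ := ih v v1 (fun τ i h3 h4 e => by
      obtain ⟨j, h5, h6, h7⟩ := stable_Link h h3 h4
      exact hp τ j h5 h6 (by rw [← v4, e, h7])) z v3.symm
    exact ⟨Γ, a1, a2, fun τ => by rw [Function.iterate_succ_apply', a3, v4]⟩

theorem sLink (hB : SBij) (hM : SMon) : SLink := by
  intro n c p h t ht
  have hP := post_Link h
  obtain ⟨j, hj, htj⟩ := chart_Link ((hP t).1 ht)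
  obtain ⟨hM1, hM2⟩ := hM n c p h j t hj htj
  have hbij0 := hB n c p h j t hj htj
  have hfe := eval_Link c
  generalize (X ^ 2 + C (c : ℂ) : ℂ[X]) = f at hP hfe ht ⊢
  have hit : ∀ m z, (fun x => f.eval x)^[m] z = (qc c)^[m] z := fun m z => by rw [hfe]
  have hv : ∀ v : PreTree f t, (qc c)^[v.1.1] v.1.2 = t := fun v => (hit _ _).symm.trans v.2
  have hbij : Function.Bijective fun v : PreTree f t => U n c v.1.1 j v.1.2 := by
    constructor
    · intro v w e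
      have := congrArg Subtype.val (hbij0.1 (a₁ := ⟨v.1, hv v⟩) (a₂ := ⟨w.1, hv w⟩) e)
      exact Subtype.ext this
    · intro l
      obtain ⟨v, rfl⟩ := hbij0.2 l
      exact ⟨⟨v.1, (hit _ _).trans v.2⟩, rfl⟩
  let e : PreTree f t ≃ List Bool := Equiv.ofBijective _ hbij
  have he : ∀ v, e v = U n c v.1.1 j v.1.2 := fun _ => rfl
  have key : ∀ (γ : Path t t) (g : Equiv.Perm (List Bool)), Mon n c j γ g →
      ∀ v w : PreTree f t, w.1.1 = v.1.1 →
        (∃ Γ : Path v.1.2 w.1.2, ∀ τ, (fun x => f.eval x)^[v.1.1] (Γ τ) = γ τ) →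
        e w = g (e v) := by
    rintro γ g hg v w hn ⟨Γ, hΓ⟩
    have := hg v.1.1 Γ Γ.continuous fun τ => (hit _ _).symm.trans (hΓ τ)
    rw [Γ.source, Γ.target] at this
    rw [he, he, hn, this]
  have hmap : (IMG f t).map (e.permCongrHom : Equiv.Perm (PreTree f t) →* _) = Ev n := by
    apply le_antisymm
    · rw [IMG, MonoidHom.map_closure, Subgroup.closure_le]
      rintro _ ⟨π, ⟨γ, h1, h2⟩, rfl⟩
      have h3 := fun τ => (hP _).1 (h1 τ)
      obtain ⟨g, g1, g2⟩ := hM1 γ h3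
      have : e.permCongrHom π = g := by
        ext1 x
        obtain ⟨v, rfl⟩ := e.surjective x
        obtain ⟨Γ, b1, b2, b3⟩ := lift_Link h v.1.1 γ γ.continuous h3 v.1.2
          ((hv v).trans γ.source.symm)
        let w : PreTree f t := ⟨(v.1.1, Γ 1), (hit _ _).trans ((b3 1).trans γ.target)⟩
        have b4 : ∃ Γ : Path v.1.2 w.1.2, ∀ τ, (fun x => f.eval x)^[v.1.1] (Γ τ) = γ τ :=
          ⟨⟨⟨Γ, b1⟩, b2, rfl⟩, fun τ => (hit _ _).trans (b3 τ)⟩
        rw [← key γ g g2 v w rfl b4, ← h2 v w rfl b4]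
        simp
      exact this ▸ g1
    · rw [Ev, Subgroup.closure_le]
      rintro _ ⟨a, ha, b, hb, rfl⟩
      obtain ⟨γ, h1, h2⟩ := hM2 a ha b hb
      refine ⟨e.permCongrHom.symm (Rf n a * Rf n b), Subgroup.subset_closure ⟨γ,
        fun τ => (hP _).2 (h1 τ), fun v w hn hT => ?_⟩, e.permCongrHom.apply_symm_apply _⟩
      apply e.injective
      rw [key γ _ h2 v w hn hT]
      simp [Equiv.permCongrHom]
  exact ⟨((e.permCongrHom.subgroupMap _).trans (MulEquiv.subgroupCongr hmap)).symm⟩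

end Pool.Agent.MP_61ef33_al.Air
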