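import Pool.Agent.MP_61ef33_al.Air.St

set_option autoImplicit false

namespace Pool.Agent.MP_61ef33_al.Air

/-- apply a map below the first letter `b` -/
def atF_Model (b : Bool) (g : List Bool → List Bool) : List Bool → List Bool
  | [] => []
  | a :: w => if a = b then a :: g w else a :: w

theorem atF_comp_Model (b : Bool) (g h : List Bool → List Bool) (w : List Bool) :
    atF_Model b g (atF_Model b h w) = atF_Model b (g ∘ h) w := by
  rcases w with _ | ⟨a, w⟩
  · rfl
  · by_cases e : a = b <;> simp [atF_Model, e]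

theorem atF_id_Model (b : Bool) (w : List Bool) : atF_Model b id w = w := by
  rcases w with _ | ⟨a, w⟩
  · rfl
  · by_cases e : a = b <;> simp [atF_Model, e]

/-- the action below the first letter `b` -/
def at_Model (b : Bool) : Equiv.Perm (List Bool) →* Equiv.Perm (List Bool) where
  toFun g :=
    { toFun := atF_Model b g
      invFun := atF_Model b g.symm
      left_inv := fun w => by rw [atF_comp_Model, g.symm_comp_self, atF_id_Model]
      right_inv := fun w => by rw [atF_comp_Model, g.self_comp_symm, atF_id_Model] }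
  map_one' := Equiv.ext fun w => atF_id_Model b w
  map_mul' g h := Equiv.ext fun w => (atF_comp_Model b g h w).symm

theorem at_apply_Model (b : Bool) (g : Equiv.Perm (List Bool)) (w : List Bool) :
    at_Model b g w = atF_Model b g w := rfl

/-- the swap -/
def sF_Model (n : ℕ) : List Bool → List Bool
  | [] => []
  | a :: w => (!a) :: r n w 1

theorem sF_sF_Model (n : ℕ) (w : List Bool) : sF_Model n (sF_Model n w) = w := by
  rcases w with _ | ⟨a, w⟩
  · rfl
  · simp [sF_Model, r_r]

def s_Model (n : ℕ) : Equiv.Perm (List Bool) :=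
  Function.Involutive.toPerm (sF_Model n) (sF_sF_Model n)

theorem s_apply_Model (n : ℕ) (w : List Bool) : s_Model n w = sF_Model n w := rfl

theorem Rf_inv_Model (n j : ℕ) : (Rf n j)⁻¹ = Rf n j := inv_eq_of_mul_eq_one_right (Rf_mul_self n j)

def R_Model (n : ℕ) : Equiv.Perm (List Bool) →* Equiv.Perm (List Bool) :=
  (at_Model false).comp (MulAut.conj (Rf n 1)).toMonoidHom

theorem R_apply_Model (n : ℕ) (g : Equiv.Perm (List Bool)) (w : List Bool) :
    R_Model n g w = atF_Model false (fun v => r n (g (r n v 1)) 1) w := by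
  change at_Model false (Rf n 1 * g * (Rf n 1)⁻¹) w = _
  rw [Rf_inv_Model]
  rfl

def A_Model (k : ℕ) : SS (Equiv.Perm (List Bool)) k where
  L := at_Model true
  R := R_Model (k + 2)
  s := s_Model (k + 2)
  x := Rf (k + 2) 0 * Rf (k + 2) 1
  b i := Rf (k + 2) (i + 1) * Rf (k + 2) (i + 2)
  comm g h := Equiv.ext fun w => by
    rcases w with _ | ⟨_ | _, w⟩ <;> simp [R_apply_Model, at_apply_Model, atF_Model]
  ss := Equiv.ext (sF_sF_Model _)
  sL g := Equiv.ext fun w => by
    rcases w with _ | ⟨_ | _, w⟩ <;>
      simp [R_apply_Model, at_apply_Model, atF_Model, s_apply_Model, sF_Model, r_r]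
  inj g h e := by
    refine ⟨Equiv.ext fun w => ?_, Equiv.ext fun w => ?_⟩
    · simpa [R_apply_Model, at_apply_Model, atF_Model] using DFunLike.congr_fun e (true :: w)
    · have h1 := DFunLike.congr_fun e (false :: r (k + 2) w 1)
      simp only [Equiv.Perm.mul_apply, R_apply_Model, at_apply_Model, atF_Model, r_r, if_true,
        Bool.false_eq_true, if_false, Equiv.Perm.one_apply, List.cons.injEq, true_and] at h1
      have h2 := congrArg (fun v => r (k + 2) v 1) h1
      simpa only [r_r, Equiv.Perm.one_apply] using h2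
  ns g h e := by
    simpa [R_apply_Model, at_apply_Model, atF_Model, s_apply_Model, sF_Model] using
      DFunLike.congr_fun e [true]
  hx := Equiv.ext fun w => by
    rcases w with _ | ⟨_ | _, w⟩ <;>
      simp [at_apply_Model, atF_Model, s_apply_Model, sF_Model, Rf_apply, r, ph, r_r]
  hb i := Equiv.ext fun w => by
    have h1 : (i : ℕ) + 2 < k + 2 := by omega
    have h2 : (i : ℕ) + 1 < k + 2 := by omega
    rcases w with _ | ⟨_ | _, w⟩ <;>
      simp [at_apply_Model, atF_Model, Rf_apply, r, ph, r_r, h1, h2]
  hl := Equiv.ext fun w => by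
    rcases w with _ | ⟨_ | _, w⟩ <;>
      simp [R_apply_Model, atF_Model, Rf_apply, r, ph, r_r]

theorem sModel : SModel := fun k => by
  refine ⟨A_Model k, le_antisymm (Subgroup.closure_mono ?_) ((Subgroup.closure_le _).2 ?_)⟩
  · rintro _ (rfl | ⟨i, rfl⟩)
    · exact ⟨0, by omega, 1, by omega, rfl⟩
    · exact ⟨i + 1, by omega, i + 2, by omega, rfl⟩
  · have h : ∀ j ≤ k + 2, Rf (k + 2) 0 * Rf (k + 2) j ∈ (A_Model k).H := by
      intro j hj
      induction j with
      | zero => rw [Rf_mul_self]; exact one_mem _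
      | succ j ih =>
        rcases j with _ | j
        · exact Subgroup.subset_closure (.inl rfl)
        · have h2 : Rf (k + 2) (j + 1) * Rf (k + 2) (j + 2) ∈ (A_Model k).H :=
            Subgroup.subset_closure (.inr ⟨⟨j, by omega⟩, rfl⟩)
          have h3 := mul_mem (ih (by omega)) h2
          rwa [mul_assoc, ← mul_assoc (Rf _ (j + 1)), Rf_mul_self, one_mul] at h3
    rintro _ ⟨i, hi, j, hj, rfl⟩
    have h3 := mul_mem (inv_mem (h i hi)) (h j hj)
    rwa [mul_inv_rev, mul_assoc, inv_mul_cancel_left, Rf_inv_Model] at h3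

end Pool.Agent.MP_61ef33_al.Air
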