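import Pool.Agent.MP_61ef33_al.Air.St

set_option autoImplicit false

namespace Pool.Agent.MP_61ef33_al.Air

open unitInterval Filter Topology Set

variable {n : ℕ} {c : ℝ} {p : ℕ → ℝ}

theorem isOpen_O_Mon (j : ℕ) : IsOpen (O n p j) := by
  have h1 : IsOpen (Iv n p j) := by
    refine IsOpen.inter (s := {x : ℝ | j ≠ 0 → p j < x}) (t := {x : ℝ | j ≠ n → x < p (j + 1)}) ?_ ?_
    · by_cases h : j = 0
      · simp [h]
      · simp only [ne_eq, h, not_false_eq_true, forall_const]; exact isOpen_Ioi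
    · by_cases h : j = n
      · simp [h]
      · simp only [ne_eq, h, not_false_eq_true, forall_const]; exact isOpen_Iio
  have : O n p j = {z : ℂ | z.im ≠ 0} ∪ Complex.re ⁻¹' Iv n p j := by
    ext z; simp only [O, mem_ofPred_eq, mem_union, mem_preimage]; tauto
  rw [this]
  exact (isOpen_ne_fun Complex.continuous_im continuous_const).union
    (h1.preimage Complex.continuous_re)

theorem ex_chart_Mon {z : ℂ} (hz : ∀ i, 1 ≤ i → i ≤ n → z ≠ p i) : ∃ j ≤ n, z ∈ O n p j := by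
  classical
  refine ⟨Nat.findGreatest (fun i => p i < z.re) n, Nat.findGreatest_le n, fun e => ⟨fun h => ?_,
    fun h => ?_⟩⟩
  · exact Nat.findGreatest_of_ne_zero rfl h
  · have h1 := Nat.findGreatest_le (P := fun i => p i < z.re) n
    have h2 := Nat.findGreatest_is_greatest (P := fun i => p i < z.re) (n := n)
      (Nat.lt_succ_self _) (by omega)
    refine lt_of_le_of_ne (not_lt.1 h2) fun e' => hz _ (by omega) (by omega) (Complex.ext e' e)

theorem O_ne_Mon (h : Ord n c p) {j : ℕ} (hj : j ≤ n) {z : ℂ} (hz : z ∈ O n p j) (i : ℕ)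
    (h1 : 1 ≤ i) (h2 : i ≤ n) : z ≠ p i := by
  rintro rfl
  obtain ⟨a, b⟩ := hz (by simp)
  simp only [Complex.ofReal_re] at a b
  rcases le_or_gt i j with e | e
  · exact absurd (a (by omega)) (not_lt.2 (h.le h1 e hj))
  · exact absurd (b (by omega)) (not_lt.2 (h.le (by omega) e h2))

theorem chart_Mon (hL : SLab) (h : Ord n c p) {i j : ℕ} (hi : i ≤ n) (hj : j ≤ n) {t : ℂ}
    (ti : t ∈ O n p i) (tj : t ∈ O n p j) :
    ∃ g ∈ Ev n, ∀ m z, (qc c)^[m] z = t → U n c m i z = g (U n c m j z) := by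
  rcases lt_trichotomy t.im 0 with e | e | e
  · exact ⟨_, Subgroup.subset_closure ⟨i, hi, j, hj, rfl⟩, fun m z hz =>
      ((hL n c p h m j z hj (hz ▸ tj)).2 i hi).2 (hz ▸ e)⟩
  · have : i = j := by
      by_contra hne
      rcases lt_or_gt_of_ne hne with q | q
      · linarith [(ti e).2 (by omega), (tj e).1 (by omega), h.le (i := i + 1) (by omega) q hj]
      · linarith [(tj e).2 (by omega), (ti e).1 (by omega), h.le (i := j + 1) (by omega) q hi]
    subst this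
    exact ⟨1, one_mem _, fun _ _ _ => rfl⟩
  · exact ⟨1, one_mem _, fun m z hz => ((hL n c p h m j z hj (hz ▸ tj)).2 i hi).1 (hz ▸ e)⟩

theorem const_Mon (hL : SLab) (h : Ord n c p) {j : ℕ} (hj : j ≤ n) {J : Set I}
    (hJ : IsPreconnected J) {m : ℕ} {Γ : I → ℂ} (hΓ : Continuous Γ)
    (hO : ∀ s ∈ J, (qc c)^[m] (Γ s) ∈ O n p j) {s s' : I} (hs : s ∈ J) (hs' : s' ∈ J) :
    U n c m j (Γ s) = U n c m j (Γ s') :=
  hJ.induction₂' (fun a b => U n c m j (Γ a) = U n c m j (Γ b)) (fun a ha =>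
    ((hΓ.tendsto a).eventually (hL n c p h m j _ hj (hO a ha)).1).filter_mono nhdsWithin_le_nhds
      |>.mono fun _ e => ⟨e.symm, e⟩) (fun _ _ _ _ _ _ => Eq.trans) hs hs'

/-- monodromy between two charts -/
def M2_Mon (n : ℕ) (c : ℝ) (γ : I → ℂ) (s s' : I) (i j : ℕ) (g : Equiv.Perm (List Bool)) : Prop :=
  ∀ (m : ℕ) (Γ : I → ℂ), Continuous Γ → (∀ τ, (qc c)^[m] (Γ τ) = γ τ) →
    U n c m j (Γ s') = g (U n c m i (Γ s))

theorem ex_Mon (hL : SLab) (h : Ord n c p) {γ : I → ℂ} (hγ : Continuous γ)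
    (hP : ∀ τ i, 1 ≤ i → i ≤ n → γ τ ≠ p i) (s s' : I) : ∀ i ≤ n, ∀ j ≤ n, γ s ∈ O n p i →
      γ s' ∈ O n p j → ∃ g ∈ Ev n, M2_Mon n c γ s s' i j g := by
  refine PreconnectedSpace.induction₂' (fun s s' => ∀ i ≤ n, ∀ j ≤ n, γ s ∈ O n p i →
    γ s' ∈ O n p j → ∃ g ∈ Ev n, M2_Mon n c γ s s' i j g) (fun a => ?_) ⟨?_⟩ s s'
  · obtain ⟨k, hk, ha⟩ := ex_chart_Mon (hP a)
    obtain ⟨ε, hε, hb⟩ := Metric.mem_nhds_iff.1 (hγ.continuousAt.preimage_mem_nhds
      ((isOpen_O_Mon k).mem_nhds ha))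
    have hJ : IsPreconnected (Metric.ball a ε) := by
      refine OrdConnected.isPreconnected ⟨fun x hx y hy z hz => ?_⟩
      simp only [Metric.mem_ball, Subtype.dist_eq, Real.dist_eq, abs_lt] at hx hy ⊢
      have a1 : (x : ℝ) ≤ z := hz.1
      have a2 : (z : ℝ) ≤ y := hz.2
      exact ⟨by linarith [hx.1], by linarith [hy.2]⟩
    have key : ∀ x ∈ Metric.ball a ε, ∀ y ∈ Metric.ball a ε, ∀ i ≤ n, ∀ j ≤ n, γ x ∈ O n p i →
        γ y ∈ O n p j → ∃ g ∈ Ev n, M2_Mon n c γ x y i j g := by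
      intro x hx y hy i hi j hj xi yj
      obtain ⟨g1, a1, a2⟩ := chart_Mon hL h hk hi (hb hx) xi
      obtain ⟨g2, b1, b2⟩ := chart_Mon hL h hj hk yj (hb hy)
      refine ⟨g2 * g1, mul_mem b1 a1, fun m Γ c1 c2 => ?_⟩
      rw [b2 m _ (c2 y), const_Mon hL h hk hJ c1 (fun s hs => c2 s ▸ hb hs) hy hx, a2 m _ (c2 x)]
      rfl
    filter_upwards [Metric.ball_mem_nhds a hε] with b hb'
    exact ⟨key a (Metric.mem_ball_self hε) b hb', key b hb' a (Metric.mem_ball_self hε)⟩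
  · intro x y z h1 h2 i hi j hj xi zj
    obtain ⟨k, hk, yk⟩ := ex_chart_Mon (hP y)
    obtain ⟨g1, a1, a2⟩ := h1 i hi k hk xi yk
    obtain ⟨g2, b1, b2⟩ := h2 k hk j hj yk zj
    exact ⟨g2 * g1, mul_mem b1 a1, fun m Γ c1 c2 => by rw [b2 m Γ c1 c2, a2 m Γ c1 c2]; rfl⟩

theorem trans_Mon {x y z : ℂ} {γ : Path x y} {δ : Path y z} {i j k : ℕ}
    {g g' : Equiv.Perm (List Bool)} (h1 : M2_Mon n c γ 0 1 i j g) (h2 : M2_Mon n c δ 0 1 j k g') :
    M2_Mon n c (γ.trans δ) 0 1 i k (g' * g) := by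
  intro m Γ c1 c2
  let u : I → I := fun τ => ⟨τ / 2, by linarith [τ.2.1], by linarith [τ.2.2]⟩
  let v : I → I := fun τ => ⟨(1 + τ) / 2, by linarith [τ.2.1], by linarith [τ.2.2]⟩
  have hu : Continuous u := Continuous.subtype_mk (by fun_prop) _
  have hv : Continuous v := Continuous.subtype_mk (by fun_prop) _
  have a1 := h1 m (Γ ∘ u) (c1.comp hu) fun τ => by
    rw [Function.comp, c2, ← Path.extend_extends', Path.extend_trans_of_le_half _ _
      (by simp only [u]; linarith [τ.2.2]), ← Path.extend_extends']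
    congr 1; simp only [u]; ring
  have a2 := h2 m (Γ ∘ v) (c1.comp hv) fun τ => by
    rw [Function.comp, c2, ← Path.extend_extends', Path.extend_trans_of_half_le _ _
      (by simp only [v]; linarith [τ.2.1]), ← Path.extend_extends']
    congr 1; simp only [v]; ring
  have e1 : u 0 = 0 := Subtype.ext (by simp [u])
  have e2 : u 1 = v 0 := Subtype.ext (by simp [u, v])
  have e3 : v 1 = 1 := Subtype.ext (by simp [v])
  simp only [Function.comp, e1, e2, e3] at a1 a2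
  rw [a2, a1]
  rfl

theorem joined_Mon (h : Ord n c p) {j : ℕ} (hj : j ≤ n) {x y : ℂ} (hx : x ∈ O n p j)
    (hy : y ∈ O n p j) : ∃ γ : Path x y, ∀ τ, γ τ ∈ O n p j := by
  have hconv : Convex ℝ (Iv n p j) := OrdConnected.convex ⟨fun a ha b hb z hz =>
    ⟨fun q => (ha.1 q).trans_le hz.1, fun q => hz.2.trans_lt (hb.2 q)⟩⟩
  obtain ⟨x0, h0⟩ : (Iv n p j).Nonempty := by
    have h2 := h.two
    by_cases e : j = 0
    · exact ⟨p (j + 1) - 1, fun q => absurd e q, fun _ => by linarith⟩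
    by_cases e' : j = n
    · exact ⟨p j + 1, fun _ => by linarith, fun q => absurd e' q⟩
    have := h.lt j (j + 1) (by omega) (by omega) (by omega)
    exact ⟨(p j + p (j + 1)) / 2, fun _ => by linarith, fun _ => by linarith⟩
  have hs : StarConvex ℝ (x0 : ℂ) (O n p j) := by
    intro z hz a b ha hb hab e
    simp only [Complex.add_im, Complex.smul_im, Complex.ofReal_im, smul_eq_mul, mul_zero,
      zero_add, mul_eq_zero] at e
    simp only [Complex.add_re, Complex.smul_re, Complex.ofReal_re]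
    rcases e with e | e
    · subst e
      rw [add_zero] at hab
      simpa [hab] using h0
    · exact hconv h0 (hz e) ha hb hab
  exact (hs.isPathConnected fun _ => by simpa using h0).joinedIn x hx y hy

theorem sMon (hL : SLab) : SMon := by
  intro n c p h j t hj ht
  refine ⟨fun γ hγ => ex_Mon hL h γ.continuous hγ 0 1 j hj j hj (by simpa using ht)
    (by simpa using ht), fun a ha b hb => ?_⟩
  have up : ∀ i, Complex.I ∈ O n p i := fun i e => by simp at e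
  have dn : ∀ i, -Complex.I ∈ O n p i := fun i e => by simp at e
  obtain ⟨γ1, h1⟩ := joined_Mon h hj ht (up j)
  obtain ⟨γ2, h2⟩ := joined_Mon h hb (up b) (dn b)
  obtain ⟨γ3, h3⟩ := joined_Mon h ha (dn a) (up a)
  obtain ⟨γ4, h4⟩ := joined_Mon h hj (up j) ht
  have cs : ∀ {x y : ℂ} (γ : Path x y) {i : ℕ}, i ≤ n → (∀ τ, γ τ ∈ O n p i) → ∀ (m : ℕ)
      (Γ : I → ℂ), Continuous Γ → (∀ τ, (qc c)^[m] (Γ τ) = γ τ) →
      U n c m i (Γ 1) = U n c m i (Γ 0) := fun γ i hi hγ m Γ c1 c2 =>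
    const_Mon hL h hi isPreconnected_univ c1 (fun s _ => c2 s ▸ hγ s) (mem_univ _) (mem_univ _)
  have m1 : M2_Mon n c γ1 0 1 j b 1 := fun m Γ c1 c2 => by
    rw [((hL n c p h m j _ hj (c2 1 ▸ h1 1)).2 b hb).1 (by rw [c2]; simp), cs γ1 hj h1 m Γ c1 c2]
    rfl
  have m2 : M2_Mon n c γ2 0 1 b a (Rf n a * Rf n b) := fun m Γ c1 c2 => by
    rw [((hL n c p h m b _ hb (c2 1 ▸ h2 1)).2 a ha).2 (by rw [c2]; simp), cs γ2 hb h2 m Γ c1 c2]
  have m3 : M2_Mon n c γ3 0 1 a j 1 := fun m Γ c1 c2 => by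
    rw [((hL n c p h m a _ ha (c2 1 ▸ h3 1)).2 j hj).1 (by rw [c2]; simp), cs γ3 ha h3 m Γ c1 c2]
    rfl
  have m4 : M2_Mon n c γ4 0 1 j j 1 := cs γ4 hj h4
  refine ⟨((γ1.trans γ2).trans γ3).trans γ4, fun τ i a1 a2 => ?_, ?_⟩
  · have : (((γ1.trans γ2).trans γ3).trans γ4) τ ∈ range _ := mem_range_self τ
    simp only [Path.trans_range, mem_union, mem_range] at this
    rcases this with ((⟨s, e⟩ | ⟨s, e⟩) | ⟨s, e⟩) | ⟨s, e⟩ <;> rw [← e]
    exacts [O_ne_Mon h hj (h1 s) i a1 a2, O_ne_Mon h hb (h2 s) i a1 a2,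
      O_ne_Mon h ha (h3 s) i a1 a2, O_ne_Mon h hj (h4 s) i a1 a2]
  · have := trans_Mon (trans_Mon (trans_Mon m1 m2) m3) m4
    simp only [one_mul, mul_one] at this
    exact this

end Pool.Agent.MP_61ef33_al.Air
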