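import Pool.Agent.MP_61ef33_al.Air.St

/- Existence of the centres and the order of the postcritical points. -/

set_option autoImplicit false

namespace Pool.Agent.MP_61ef33_al.Air

open Set

/-- the critical orbit -/
def g_Ord (j : ℕ) (c : ℝ) : ℝ := (fun x : ℝ => x ^ 2 + c)^[j] 0

theorem succ_Ord (j : ℕ) (c : ℝ) : g_Ord (j + 1) c = g_Ord j c ^ 2 + c :=
  Function.iterate_succ_apply' _ _ _

theorem two_Ord (c : ℝ) : g_Ord 2 c = c ^ 2 + c := by simp [g_Ord]

theorem cont_Ord (j : ℕ) : Continuous (g_Ord j) := by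
  induction j with
  | zero => exact continuous_const
  | succ j ih =>
    rw [show g_Ord (j + 1) = fun c => g_Ord j c ^ 2 + c from funext (succ_Ord j)]
    exact (ih.pow 2).add continuous_id

theorem end_Ord (j : ℕ) : g_Ord (j + 2) (-2) = 2 := by
  induction j with
  | zero => rw [zero_add, two_Ord]; norm_num
  | succ j ih => rw [add_right_comm, succ_Ord, ih]; norm_num

theorem root_Ord (j : ℕ) {c : ℝ} (h : -2 ≤ c) (h' : g_Ord (j + 2) c ≤ 0) :
    ∃ x ∈ Icc (-2) c, g_Ord (j + 2) x = 0 :=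
  intermediate_value_Icc' h (cont_Ord _).continuousOn ⟨h', by rw [end_Ord]; norm_num⟩

theorem ex_Ord (n : ℕ) : ∃ c : ℝ, -2 ≤ c ∧ c < 0 ∧ g_Ord (n + 2) c = 0 ∧
    (∀ x ∈ Icc (-2) c, ∀ j, 2 ≤ j → j < n + 2 → 0 < g_Ord j x) ∧
    ∀ x ∈ Ico (-2) c, 0 < g_Ord (n + 2) x := by
  induction n with
  | zero =>
    refine ⟨-1, by norm_num, by norm_num, by rw [zero_add, two_Ord]; norm_num,
      fun x _ j h1 h2 => by omega, fun x hx => ?_⟩
    rw [zero_add, two_Ord]
    nlinarith [hx.2]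
  | succ n ih =>
    obtain ⟨c, h1, h2, h3, h4, h5⟩ := ih
    have e : g_Ord (n + 1 + 2) c = c := by rw [add_right_comm, succ_Ord, h3]; ring
    obtain ⟨a, ⟨a1, a2⟩, a3⟩ := (isCompact_Icc.inter_right (isClosed_eq (cont_Ord (n + 1 + 2))
      (continuous_const (y := 0)))).exists_isLeast (root_Ord (n + 1) h1 (e.le.trans h2.le))
    have a4 : a < c := lt_of_le_of_ne a1.2 fun q => by
      rw [q, mem_ofPred_eq, e] at a2
      exact h2.ne a2
    refine ⟨a, a1.1, a4.trans h2, a2, fun x hx j b1 b2 => ?_, fun x hx => ?_⟩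
    · rcases (Nat.lt_succ_iff.1 b2).eq_or_lt with rfl | b3
      · exact h5 x ⟨hx.1, hx.2.trans_lt a4⟩
      · exact h4 x ⟨hx.1, hx.2.trans a4.le⟩ j b1 b3
    · by_contra q
      obtain ⟨y, y1, y2⟩ := root_Ord (n + 1) hx.1 (not_lt.1 q)
      exact absurd (a3 ⟨⟨y1.1, y1.2.trans (hx.2.trans a4).le⟩, y2⟩) (not_le.2 (y1.2.trans_lt hx.2))

theorem sOrd : SOrd := by
  intro n hn
  obtain ⟨m, rfl⟩ : ∃ m, n = m + 2 := ⟨n - 2, by omega⟩
  refine ⟨?_, fun c hc => ?_⟩
  · obtain ⟨c, h1, -, h3, h4, -⟩ := ex_Ord m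
    exact ⟨c, h3, h4 c ⟨h1, le_rfl⟩⟩
  have h1 : g_Ord (m + 2) c = 0 := hc.1
  have h2 : ∀ j, 2 ≤ j → j < m + 2 → 0 < g_Ord j c := hc.2
  let p : ℕ → ℝ := fun j => if j = 1 then c else g_Ord (m + 4 - j) c
  have p1 : p 1 = c := rfl
  have pj : ∀ j, 2 ≤ j → p j = g_Ord (m + 4 - j) c := fun j h => if_neg (by omega)
  have p2 : p 2 = 0 := (pj 2 le_rfl).trans h1
  have nx : ∀ j, 1 ≤ j → j < m + 2 → p (j + 1) ^ 2 + c = p j := fun j a b => by
    rcases a.eq_or_lt with rfl | a'
    · rw [p1, p2]; ring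
    · rw [pj j a', pj _ (by omega), ← succ_Ord]
      congr 1
      omega
  have pos : ∀ j, 3 ≤ j → j ≤ m + 2 → 0 < p j := fun j a b => by
    rw [pj j (by omega)]
    exact h2 _ (by omega) (by omega)
  have st : ∀ j, 1 ≤ j → j < m + 2 → p j < p (j + 1) := fun j a => by
    induction j, a using Nat.le_induction with
    | base =>
      intro _
      have a1 := nx 2 (by omega) (by omega)
      have a2 := pos 3 le_rfl hn
      rw [p1, p2]
      rw [p2] at a1
      nlinarith
    | succ j a ih =>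
      intro b
      have a1 := ih (by omega)
      rw [← nx j a (by omega)] at a1
      have a2 := nx (j + 1) (by omega) b
      exact lt_of_pow_lt_pow_left₀ 2 (pos _ (by omega) (by omega)).le (by linarith)
  refine ⟨p, by omega, p1, p2, fun i j a b => ?_, nx, ?_⟩
  · induction j, b using Nat.le_induction with
    | base => exact fun h => st i a h
    | succ j b ih => exact fun h => (ih (by omega)).trans (st j (by omega) h)
  · rw [pj _ (by omega), ← two_Ord]
    congr 1
    omega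

end Pool.Agent.MP_61ef33_al.Air
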