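import Pool.Agent.MP_61ef33_al.Air.St

set_option autoImplicit false

namespace Pool.Agent.MP_61ef33_al.Air

open Finset
open scoped ENNReal

/-- the weight of an entry of the side information -/
def v_Res {k : ℕ} : Option (T k × Bool) → ℕ
  | none => 0
  | some p => 1 + wt p.1

theorem sum_Res (hU : SSum) (k : ℕ) :
    ∑' x : Option (T k × Bool), ENNReal.ofReal (Real.exp (-(v_Res x : ℝ))) ≠ ⊤ := by
  rw [← (Equiv.optionEquivSumPUnit.{0, 0} (T k × Bool)).symm.tsum_eq,
    Summable.tsum_sum ENNReal.summable ENNReal.summable]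
  refine ENNReal.add_ne_top.2 ⟨?_, by simp⟩
  rw [ENNReal.tsum_prod', ENNReal.tsum_comm, tsum_bool]
  have h : ∀ b : Bool, ∑' t : T k, ENNReal.ofReal (Real.exp (-(v_Res (some (t, b)) : ℝ))) ≠ ⊤ :=
    fun b => ne_top_of_le_ne_top (hU k) (ENNReal.tsum_le_tsum fun t =>
      ENNReal.ofReal_le_ofReal (Real.exp_le_exp.2 (by simp [v_Res])))
  exact ENNReal.add_ne_top.2 ⟨h false, h true⟩

theorem bd_Res (k d : ℕ) : ∃ B : ℕ, ∀ t : T k, wt (res d t) ≤ B := by
  have h : ∀ (a : ℤ) (i : ℕ), (a % Md k d i).natAbs ≤ (Md k d i).natAbs := fun a i => by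
    have h0 : 0 < Md k d i := pow_pos (by norm_num) _
    have h1 := Int.emod_nonneg a h0.ne'
    have h2 := Int.emod_lt_of_pos a h0
    omega
  exact ⟨(Md k d (k + 1)).natAbs + ∑ i : Fin (k + 1), (Md k d i).natAbs, fun t =>
    add_le_add (h _ _) (sum_le_sum fun i _ => h _ _)⟩

theorem side_Res {k d B : ℕ} (hB : ∀ t : T k, wt (res d t) ≤ B) (W : List (T k)) :
    ((side d W).map v_Res).sum ≤ (1 + B) * (side d W).countP Option.isSome := by
  induction W with
  | nil => simp [side]
  | cons t W ih =>
    rw [side, List.map_cons, List.sum_cons, List.countP_cons]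
    split
    · simpa [v_Res] using ih
    · have := hB t
      simp only [v_Res, Option.isSome_some, if_true, mul_add, mul_one]
      omega

theorem zero_Res {k : ℕ} (t : T k) : res 0 t = (0, fun _ => 0) := by
  have h : ∀ i, i ≤ k + 1 → Md k 0 i = 1 := fun i hi => by
    rw [Md, zero_add, Nat.div_eq_of_lt (by omega), pow_zero]
  refine Prod.ext ?_ (funext fun i => ?_)
  · exact (congrArg _ (h _ le_rfl)).trans (Int.emod_one _)
  · exact (congrArg _ (h _ i.2.le)).trans (Int.emod_one _)

theorem sRes (hS : SSparse) (hU : SSum) (hL : SLen) (hD : SSide) (hI : SInj) : SRes := by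
  intro k hk d
  induction d with
  | zero =>
    intro ε hε
    obtain ⟨K, -, h⟩ := hS Unit () (fun _ => 0) (by simp) (fun _ h => absurd rfl h) ε hε
    refine ⟨0, le_rfl, (h.comp fun W : List (T k) => W.map fun _ => ()).det
      (fun W W' e => ?_) 0 fun W => by simp⟩
    have e' := congrArg List.length e
    simp only [List.length_map] at e'
    rw [funext (zero_Res (k := k)), List.map_const', List.map_const', e']
  | succ d ih =>
    intro ε hε
    obtain ⟨κ, hκ, h1⟩ := ih (ε / 2) (half_pos hε)
    obtain ⟨K, hK, h2⟩ := hS _ none v_Res (sum_Res hU k) (fun x hx => by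
      cases x with
      | none => exact absurd rfl hx
      | some p => exact Nat.le_add_right _ _) (ε / 2) (half_pos hε)
    obtain ⟨B, hB⟩ := bd_Res k (d + 1)
    refine ⟨κ + 6 * (K * (1 + B)), by positivity,
      (((h1.comp (ch true)).pair (h1.comp (ch false))).pair (h2.comp (side (d + 1)))).det
        (fun W W' e => ?_) (ε + 2 * (K * (1 + B))) fun W => ?_⟩
    · simp only [Prod.mk.injEq] at e
      refine hI k d W W' e.2 fun p => ?_
      cases p
      · exact e.1.2
      · exact e.1.1
    · obtain ⟨-, a1, a2, -⟩ := hL k W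
      obtain ⟨a3, a4⟩ := hD k hk (d + 1) W
      have a5 : Ls 2 W ≤ Ls (d + 1 + 1) W := by
        rw [show d + 1 + 1 = 2 + d by omega, a2]
        exact Nat.le_add_right _ _
      have a6 : ((side (d + 1) W).map v_Res).sum ≤ (1 + B) * (6 * Ls (d + 1 + 1) W + 2) :=
        (side_Res hB W).trans (Nat.mul_le_mul_left _ (by omega))
      have a7 : Ls (d + 1) (ch true W) + Ls (d + 1) (ch false W) ≤ Ls (d + 1 + 1) W := by
        rw [Ls.eq_2 W (d + 1)]
        omega
      have b1 : ((ch true W).length : ℝ) + (ch false W).length ≤ W.length + 2 := by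
        exact_mod_cast (show (ch true W).length + (ch false W).length ≤ W.length + 2 by omega)
      have b6 : ((((side (d + 1) W).map v_Res).sum : ℕ) : ℝ) ≤
          (1 + B) * (6 * Ls (d + 1 + 1) W + 2) := by exact_mod_cast a6
      have b7 : (Ls (d + 1) (ch true W) : ℝ) + Ls (d + 1) (ch false W) ≤ Ls (d + 1 + 1) W := by
        exact_mod_cast a7
      have c1 := mul_le_mul_of_nonneg_left b1 (half_pos hε).le
      have c6 := mul_le_mul_of_nonneg_left b6 hK
      have c7 := mul_le_mul_of_nonneg_left b7 hκ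
      rw [a3]
      linarith

end Pool.Agent.MP_61ef33_al.Air
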