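import Pool.Agent.MP_61ef33_al.Air.St

/- The side information is controlled by the syllables lost in two steps. -/

set_option autoImplicit false

namespace Pool.Agent.MP_61ef33_al.Air

theorem len_Side {k : ℕ} (d : ℕ) (W : List (T k)) : (side d W).length = W.length := by
  induction W with
  | nil => rfl
  | cons t W ih => simp [side, ih]

theorem a_Side {k : ℕ} (d : ℕ) (W : List (T k)) :
    (side d W).countP Option.isSome + (if W.head?.all reg then 0 else 1) ≤
      2 * W.countP fun t => !reg t := by
  induction W with
  | nil => simp [side]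
  | cons t W ih =>
    rw [side, List.countP_cons, List.countP_cons, List.head?_cons, Option.all_some]
    revert ih
    cases reg t <;> cases W.head?.all reg <;> simp <;> omega

theorem b_Side {k : ℕ} (W : List (T k)) :
    (W.countP fun t => !reg t) ≤ Z W + W.countP fun t => !od t.1 := by
  induction W with
  | nil => simp
  | cons t W ih =>
    rw [Z] at ih ⊢
    rw [List.countP_cons, List.countP_cons, List.countP_cons, reg]
    by_cases h : t.2 (Fin.last k) = 0 <;> cases od t.1 <;> simp [h] <;> omega

theorem n_Side {k : ℕ} (t : T k) (W : List (T k)) :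
    Z (D true (t :: W)).2 + Z (D false (t :: W)).2 = Z (D true W).2 + Z (D false W).2 +
      if t.2 (Fin.last k) ≠ 0 ∧ (D false W).1 (Fin.last k) = 0 then 1 else 0 := by
  by_cases h : t.2 (Fin.last k) = 0 <;> by_cases h' : (D false W).1 (Fin.last k) = 0 <;>
    cases e : od t.1 <;> simp [D, Z, e, h, h'] <;> omega

theorem h_Side {k : ℕ} (hk : 1 ≤ k) (W : List (T k))
    (h : W.head?.any (fun t => !od t.1 && decide (t.2 (Fin.last k) ≠ 0)) = true) :
    (D false W).1 (Fin.last k) = 0 := by
  cases W with
  | nil => rfl
  | cons u W =>
    have l : Fin.last k ≠ 0 := fun e => by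
      have := congrArg Fin.val e
      simp at this
      omega
    simp only [List.head?_cons, Option.any_some, Bool.and_eq_true, Bool.not_eq_true',
      decide_eq_true_eq] at h
    simp [D, h.1, h.2, l]

theorem c_Side {k : ℕ} (hk : 1 ≤ k) (W : List (T k)) :
    (W.countP fun t => !od t.1) ≤ Z (D true W).2 + Z (D false W).2 + 2 * Z W +
      if W.head?.any (fun t => !od t.1 && decide (t.2 (Fin.last k) ≠ 0)) then 1 else 0 := by
  induction W with
  | nil => simp
  | cons t W ih =>
    have h := h_Side hk W
    have z : Z (t :: W) = Z W + if t.2 (Fin.last k) = 0 then 1 else 0 := by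
      simp [Z, List.countP_cons]
    rw [n_Side, z, List.countP_cons, List.head?_cons, Option.any_some]
    revert ih h
    cases W.head?.any (fun t => !od t.1 && decide (t.2 (Fin.last k) ≠ 0)) <;>
      by_cases h1 : t.2 (Fin.last k) = 0 <;> by_cases h2 : (D false W).1 (Fin.last k) = 0 <;>
      cases od t.1 <;> simp [h1, h2] <;> omega

theorem sSide : SSide := by
  intro k hk d W
  refine ⟨len_Side d W, ?_⟩
  have a := a_Side d W
  have b := b_Side W
  have c := c_Side hk W
  have e : ∀ p, Z (D p W).2 ≤ Z (ch p W) := fun p => by
    rw [ch, Z, Z, List.countP_cons]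
    omega
  have e1 := e true
  have e2 := e false
  simp only [Ls]
  split_ifs at a c <;> omega

end Pool.Agent.MP_61ef33_al.Air
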