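import Pool.Agent.MP_61ef33_al.Air.St

set_option autoImplicit false

namespace Pool.Agent.MP_61ef33_al.Air

open scoped ENNReal

theorem pi_Sparse {X : Type} (w : X → ℝ≥0∞) (n : ℕ) :
    ∑' f : Fin n → X, ∏ i, w (f i) = (∑' x, w x) ^ n := by
  induction n with
  | zero =>
    rw [tsum_fintype, pow_zero, Finset.univ_unique, Finset.sum_singleton]
    exact Fin.prod_univ_zero _
  | succ n ih =>
    rw [← (Fin.consEquiv fun _ : Fin (n + 1) => X).tsum_eq, ENNReal.tsum_prod', pow_succ', ← ih,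
      ← ENNReal.tsum_mul_right]
    refine tsum_congr fun a => ?_
    rw [← ENNReal.tsum_mul_left]
    refine tsum_congr fun f => ?_
    rw [Fin.prod_univ_succ]
    rfl

theorem list_Sparse {X : Type} (w : X → ℝ≥0∞) (h : ∑' x, w x < 1) :
    ∑' l : List X, (l.map w).prod ≠ ⊤ := by
  rw [← List.equivSigmaTuple.symm.tsum_eq, ENNReal.tsum_sigma']
  have e : ∀ n : ℕ, ∑' f : Fin n → X,
      ((List.equivSigmaTuple.symm ⟨n, f⟩ : List X).map w).prod = (∑' x, w x) ^ n := by
    intro n
    rw [← pi_Sparse w n]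
    refine tsum_congr fun f => ?_
    change ((List.ofFn f).map w).prod = _
    rw [List.map_ofFn, List.prod_ofFn]
    rfl
  rw [tsum_congr e, ENNReal.tsum_geometric]
  exact ENNReal.inv_ne_top.mpr (tsub_pos_of_lt h).ne'

theorem prod_Sparse {X : Type} (v : X → ℕ) (ε K : ℝ) (l : List X) :
    ENNReal.ofReal (Real.exp (-(ε * l.length + K * ((l.map v).sum : ℕ)))) =
      (l.map fun x => ENNReal.ofReal (Real.exp (-(ε + K * v x)))).prod := by
  induction l with
  | nil => simp
  | cons a l ih =>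
    rw [List.map_cons, List.map_cons, List.prod_cons, ← ih,
      ← ENNReal.ofReal_mul (Real.exp_pos _).le, ← Real.exp_add, List.sum_cons, List.length_cons]
    congr 2
    push_cast
    ring

theorem sSparse : SSparse := by
  intro X x0 v hS hv ε hε
  classical
  obtain ⟨S, hS0, hSe⟩ : ∃ S : ℝ, 0 ≤ S ∧
      ∑' x, ENNReal.ofReal (Real.exp (-(v x : ℝ))) = ENNReal.ofReal S :=
    ⟨_, ENNReal.toReal_nonneg, (ENNReal.ofReal_toReal hS).symm⟩
  have he1 : Real.exp (-ε) < 1 := by
    rw [← Real.exp_zero]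
    exact Real.exp_lt_exp.mpr (by linarith)
  have he0 : 0 < Real.exp (-ε) := Real.exp_pos _
  obtain ⟨η, hη0, hη1, hη⟩ : ∃ η : ℝ, 0 < η ∧ η ≤ 1 ∧ Real.exp (-ε) + η * S < 1 := by
    refine ⟨(1 - Real.exp (-ε)) / (S + 1), div_pos (by linarith) (by linarith), ?_, ?_⟩
    · rw [div_le_one (by linarith)]
      linarith
    · have : (1 - Real.exp (-ε)) / (S + 1) * S < 1 - Real.exp (-ε) := by
        rw [div_mul_eq_mul_div, div_lt_iff₀ (by linarith)]
        nlinarith
      linarith
  have hlog : Real.log η ≤ 0 := Real.log_nonpos hη0.le hη1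
  refine ⟨1 - Real.log η, by linarith,
    fun l => (l.map fun x => ENNReal.ofReal (Real.exp (-(ε + (1 - Real.log η) * v x)))).prod,
    list_Sparse _ ?_, fun l => (prod_Sparse v ε _ l).le⟩
  have hb : ∀ x, ENNReal.ofReal (Real.exp (-(ε + (1 - Real.log η) * v x))) ≤
      (if x = x0 then ENNReal.ofReal (Real.exp (-ε)) else 0) +
        ENNReal.ofReal η * ENNReal.ofReal (Real.exp (-(v x : ℝ))) := by
    intro x
    have hx0 : (0 : ℝ) ≤ v x := Nat.cast_nonneg _
    by_cases hx : x = x0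
    · rw [if_pos hx]
      refine le_trans (ENNReal.ofReal_le_ofReal (Real.exp_le_exp.mpr ?_)) le_self_add
      nlinarith
    · rw [if_neg hx, zero_add, ← ENNReal.ofReal_mul hη0.le]
      refine ENNReal.ofReal_le_ofReal ?_
      have h1 : (1 : ℝ) ≤ v x := by exact_mod_cast hv x hx
      calc Real.exp (-(ε + (1 - Real.log η) * v x))
          ≤ Real.exp (Real.log η + -(v x : ℝ)) := Real.exp_le_exp.mpr (by nlinarith)
        _ = η * Real.exp (-(v x : ℝ)) := by rw [Real.exp_add, Real.exp_log hη0]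
  refine lt_of_le_of_lt (ENNReal.tsum_le_tsum hb) ?_
  rw [ENNReal.tsum_add, tsum_ite_eq, ENNReal.tsum_mul_left, hSe, ← ENNReal.ofReal_mul hη0.le,
    ← ENNReal.ofReal_add he0.le (mul_nonneg hη0.le hS0)]
  exact ENNReal.ofReal_lt_one.mpr hη

end Pool.Agent.MP_61ef33_al.Air
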