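import Pool.Agent.MP_61ef33_al.Air.St

set_option autoImplicit false

namespace Pool.Agent.MP_61ef33_al.Air

open Finset

theorem ncard_Sub {X : Type} (S : ℕ → Set X) (q : ℕ) :
    (⋃ t ∈ range q, S t).ncard ≤ ∑ t ∈ range q, (S t).ncard := by
  induction q with
  | zero => simp
  | succ q ih =>
    rw [range_add_one, set_biUnion_insert, sum_insert notMem_range_self]
    exact (Set.ncard_union_le _ _).trans (by omega)

theorem sSub (hE : SEv) (hI : SId) (hL : SLen) (hC : SCount) : SSub := by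
  intro Γ _ k A hk δ hδ
  obtain ⟨ε, rfl⟩ : ∃ ε, δ = 2 * ε := ⟨δ / 2, by ring⟩
  have hε : 0 < ε := by linarith
  obtain ⟨m, κ, hκ, h0⟩ := hI k hk ε hε
  have h1 : ∀ j, Sm A.ev fun W => ε * (Wt W + W.length) + κ * Lk m j W := fun j => by
    induction j with
    | zero => exact h0.det (fun a a' e => by rw [e]) 0 fun a => by simp [Lk]
    | succ j ih =>
      refine ((Sm.fin par).pair ((ih.comp (ch true)).pair (ih.comp (ch false)))).det
        (fun a a' e => ?_) (2 * ε) fun W => ?_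
      · simp only [Prod.mk.injEq] at e
        rw [(hE Γ k A).2 a, (hE Γ k A).2 a', e.1, e.2.1, e.2.2]
      · have a1 : (Wt (ch true W) : ℝ) + Wt (ch false W) ≤ Wt W := by exact_mod_cast (hL k W).1
        have a2 : ((ch true W).length : ℝ) + (ch false W).length + Z W = W.length + 2 := by
          exact_mod_cast (hL k W).2.1
        have a3 : (0 : ℝ) ≤ Z W := Nat.cast_nonneg _
        simp only [Lk]
        push_cast
        nlinarith
  obtain ⟨q, hq⟩ := exists_nat_gt (κ / ε)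
  have q0 : 0 < q := Nat.cast_pos.1 ((div_nonneg hκ hε.le).trans_lt hq)
  rw [div_lt_iff₀ hε] at hq
  have h2 : ∀ (W : List (T k)) (n : ℕ), ∑ t ∈ range n, Lk m (t * m) W = Ls (n * m) W := by
    intro W n
    induction n with
    | zero => simp [Ls]
    | succ n ih => rw [sum_range_succ, ih, add_one_mul, (hL k W).2.2.1]
  have h3 : ∀ W : List (T k), ∃ t ∈ range q, q * Lk m (t * m) W ≤ W.length + 2 ^ (q * m + 1) := by
    intro W
    refine exists_le_of_sum_le (nonempty_range_iff.2 q0.ne') ?_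
    rw [← mul_sum, h2, sum_const, card_range, smul_eq_mul]
    exact Nat.mul_le_mul_left _ ((hL k W).2.2.2 _)
  choose K K0 hK using fun t => hC _ _ _ _ (h1 (t * m))
  refine ⟨(∑ t ∈ range q, K t) * Real.exp (ε * 2 ^ (q * m + 1)), fun N => ?_⟩
  have h4 : A.ev '' {W | Wt W + W.length ≤ N} ⊆ ⋃ t ∈ range q, A.ev '' {W |
      ε * (Wt W + W.length) + κ * Lk m (t * m) W ≤ ε * 2 ^ (q * m + 1) + 2 * ε * N} := by
    rintro _ ⟨W, hW, rfl⟩
    obtain ⟨t, t1, t2⟩ := h3 W
    refine Set.mem_biUnion t1 ⟨W, ?_, rfl⟩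
    have a1 : (Wt W : ℝ) + W.length ≤ N := by exact_mod_cast hW
    have a2 : (q : ℝ) * Lk m (t * m) W ≤ W.length + 2 ^ (q * m + 1) := by exact_mod_cast t2
    have a3 : (0 : ℝ) ≤ Wt W := Nat.cast_nonneg _
    have a4 : κ * Lk m (t * m) W ≤ q * ε * Lk m (t * m) W :=
      mul_le_mul_of_nonneg_right hq.le (Nat.cast_nonneg _)
    rw [Set.mem_ofPred_eq]
    nlinarith
  have h5 := (range q).finite_toSet.biUnion fun t _ => (hK t (ε * 2 ^ (q * m + 1) + 2 * ε * N)).1
  refine ⟨h5.subset h4, ?_⟩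
  refine (Nat.cast_le.2 ((Set.ncard_le_ncard h4 h5).trans (ncard_Sub _ q))).trans ?_
  rw [Nat.cast_sum, mul_assoc (∑ t ∈ range q, K t), ← Real.exp_add, sum_mul]
  exact sum_le_sum fun t _ => (hK t _).2

end Pool.Agent.MP_61ef33_al.Air
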