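import Pool.Agent.MP_61ef33_al.Air.Bij
import Pool.Agent.MP_61ef33_al.Air.Cnt
import Pool.Agent.MP_61ef33_al.Air.Ev
import Pool.Agent.MP_61ef33_al.Air.Id
import Pool.Agent.MP_61ef33_al.Air.Inj
import Pool.Agent.MP_61ef33_al.Air.Int
import Pool.Agent.MP_61ef33_al.Air.Lab
import Pool.Agent.MP_61ef33_al.Air.Len
import Pool.Agent.MP_61ef33_al.Air.Link
import Pool.Agent.MP_61ef33_al.Air.Model
import Pool.Agent.MP_61ef33_al.Air.Mon
import Pool.Agent.MP_61ef33_al.Air.Ord
import Pool.Agent.MP_61ef33_al.Air.Poly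
import Pool.Agent.MP_61ef33_al.Air.Res
import Pool.Agent.MP_61ef33_al.Air.Side
import Pool.Agent.MP_61ef33_al.Air.Sparse
import Pool.Agent.MP_61ef33_al.Air.Sub

set_option autoImplicit false

namespace Pool.Agent.MP_61ef33_al.Air

open Polynomial Filter

theorem ig_of_equiv {G H : Type} [Group G] [Group H] (e : G ≃* H)
    (h : IntermediateGrowth G) : IntermediateGrowth H := by
  classical
  obtain ⟨S, h1, h2, h3⟩ := h
  have hb : ∀ n, ball (S.image e) n = e '' ball S n := by
    intro n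
    ext g
    constructor
    · rintro ⟨l, a1, a2, rfl⟩
      refine ⟨(l.map e.symm).prod, ⟨l.map e.symm, by simpa using a1, ?_, rfl⟩, ?_⟩
      · intro x hx
        obtain ⟨y, hy, rfl⟩ := List.mem_map.1 hx
        rcases a2 y hy with h | h
        · obtain ⟨z, hz, rfl⟩ := Finset.mem_image.1 h
          left; simpa using hz
        · obtain ⟨z, hz, e'⟩ := Finset.mem_image.1 h
          right; rw [← map_inv, ← e']; simpa using hz
      · rw [map_list_prod, List.map_map]; simp
    · rintro ⟨_, ⟨l, a1, a2, rfl⟩, rfl⟩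
      refine ⟨l.map e, by simpa using a1, ?_, (map_list_prod e l).symm⟩
      intro x hx
      obtain ⟨y, hy, rfl⟩ := List.mem_map.1 hx
      rcases a2 y hy with h | h
      · exact Or.inl (Finset.mem_image_of_mem _ h)
      · right; rw [← map_inv]; exact Finset.mem_image_of_mem _ h
  have hg : ∀ n, growth (S.image e) n = growth S n := fun n => by
    rw [growth, hb, Set.ncard_image_of_injective _ e.injective, growth]
  refine ⟨S.image e, ?_, by simpa only [hg] using h2, by simpa only [hg] using h3⟩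
  rw [Finset.coe_image]
  change Subgroup.closure (e.toMonoidHom '' _) = ⊤
  rw [← MonoidHom.map_closure, h1]
  exact Subgroup.map_top_of_surjective _ e.surjective

theorem int_all : SInt :=
  sInt sEv (sSub sEv (sId sSparse sSum (sRes sSparse sSum sLen sSide sInj)) sLen sCount) sPoly

theorem air_all {n : ℕ} (hn : 3 ≤ n) {c : ℝ} (hc : Cen n c) {t : ℂ}
    (ht : t ∉ postcrit (X ^ 2 + C (c : ℂ))) : IntermediateGrowth (IMG (X ^ 2 + C (c : ℂ)) t) := by
  obtain ⟨k, rfl⟩ : ∃ k, n = k + 2 := ⟨n - 2, by omega⟩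
  obtain ⟨p, hp⟩ := (sOrd _ hn).2 c hc
  obtain ⟨e⟩ := sLink sBij (sMon sLab) _ c p hp t ht
  obtain ⟨A, hA⟩ := sModel k
  exact ig_of_equiv e (hA ▸ int_all _ k A (by omega))

end Pool.Agent.MP_61ef33_al.Air
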