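import Pool.Agent.MP_61ef33_al.Air.St

/- The labels number the fibres. -/

set_option autoImplicit false

namespace Pool.Agent.MP_61ef33_al.Air

theorem sd_neg_Bij {j : ℕ} {w : ℂ} (h : (if j = 0 then w.im else w.re) ≠ 0) :
    sd j (-w) = !sd j w := by
  unfold sd
  by_cases hj : j = 0
  · simp only [hj, if_true, Complex.neg_im] at h ⊢
    rcases lt_or_gt_of_ne h with a | a
    · simp [a, a.le]
    · simp [a, a.le]
  · simp only [hj, if_false, Complex.neg_re] at h ⊢
    rcases lt_or_gt_of_ne h with a | a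
    · simp [a, a.le]
    · simp [a, a.le]

theorem r_inj_Bij {n j : ℕ} {v w : List Bool} (h : r n v j = r n w j) : v = w := by
  rw [← r_r n v j, h, r_r]

theorem inj_Bij {n : ℕ} {c : ℝ} {p : ℕ → ℝ} (h : Ord n c p) (m : ℕ) :
    ∀ (j : ℕ) (z z' : ℂ), j ≤ n → (qc c)^[m] z ∈ O n p j → (qc c)^[m] z' = (qc c)^[m] z →
      U n c m j z' = U n c m j z → z' = z := by
  have hn : 1 ≤ n := le_trans (by norm_num) h.two
  induction m with
  | zero => intro j z z' _ _ e _; simpa using e
  | succ m ih =>
    intro j z z' hj ho e hu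
    rw [Function.iterate_succ_apply'] at ho
    rw [Function.iterate_succ_apply', Function.iterate_succ_apply'] at e
    obtain ⟨h1, h2⟩ := h.markov hj ho
    simp only [U, List.cons.injEq] at hu
    obtain ⟨hs, ht⟩ := hu
    have e2 : ((qc c)^[m] z') ^ 2 = ((qc c)^[m] z) ^ 2 := by
      simpa [qc] using e
    have e3 : (qc c)^[m] z' = (qc c)^[m] z := by
      rcases sq_eq_sq_iff_eq_or_eq_neg.1 e2 with a | a
      · exact a
      · rw [a, sd_neg_Bij h1] at hs
        simp at hs
    rw [hs] at ht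
    cases hb : sd j ((qc c)^[m] z) with
    | true =>
      rw [hb] at ht h2
      exact ih _ z z' (ph_le _ hn) h2 e3 (by simpa using ht)
    | false =>
      rw [hb] at ht h2
      exact ih _ z z' (ph_le _ hn) h2 e3 (r_inj_Bij (by simpa using ht))

theorem surj_Bij {n : ℕ} {c : ℝ} {p : ℕ → ℝ} (h : Ord n c p) (m : ℕ) :
    ∀ (j : ℕ) (t : ℂ) (v : List Bool), j ≤ n → t ∈ O n p j → v.length = m →
      ∃ z, (qc c)^[m] z = t ∧ U n c m j z = v := by
  have hn : 1 ≤ n := le_trans (by norm_num) h.two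
  induction m with
  | zero =>
    intro j t v _ _ hv
    exact ⟨t, rfl, (List.length_eq_zero_iff.1 hv).symm⟩
  | succ m ih =>
    intro j t v hj ht hv
    obtain ⟨b, v, rfl⟩ := List.exists_cons_of_length_eq_add_one hv
    have hv' : v.length = m := by simpa using hv
    obtain ⟨w0, hw0⟩ := IsAlgClosed.exists_pow_nat_eq (t - c) (n := 2) (by norm_num)
    have q0 : qc c w0 = t := by simp [qc, hw0]
    have q1 : qc c (-w0) = t := by simp [qc, hw0]
    obtain ⟨w, hw, hb⟩ : ∃ w, qc c w = t ∧ sd j w = b := by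
      by_cases e : sd j w0 = b
      · exact ⟨w0, q0, e⟩
      · refine ⟨-w0, q1, ?_⟩
        rw [sd_neg_Bij (h.markov hj (q0 ▸ ht)).1]
        revert e
        cases b <;> cases sd j w0 <;> simp
    have h2 := (h.markov hj (hw ▸ ht)).2
    rw [hb] at h2
    cases b with
    | true =>
      obtain ⟨z, e1, e2⟩ := ih _ w v (ph_le true hn) h2 hv'
      refine ⟨z, by rw [Function.iterate_succ_apply', e1, hw], ?_⟩
      simp [U, e1, hb, e2]
    | false =>
      obtain ⟨z, e1, e2⟩ := ih _ w (r n v (ph n false j)) (ph_le false hn) h2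
        (by rw [r_length, hv'])
      refine ⟨z, by rw [Function.iterate_succ_apply', e1, hw], ?_⟩
      simp [U, e1, hb, e2, r_r]

theorem sBij : SBij := by
  intro n c p h j t hj ht
  constructor
  · rintro ⟨⟨m, z⟩, hz⟩ ⟨⟨m', z'⟩, hz'⟩ e
    simp only at e hz hz'
    have hm : m = m' := by
      have := congrArg List.length e
      rwa [U_length, U_length] at this
    subst hm
    have := inj_Bij h m j z' z hj (hz' ▸ ht) (hz.trans hz'.symm) e
    subst this
    rfl
  · intro v
    obtain ⟨z, e1, e2⟩ := surj_Bij h v.length j t v hj ht rfl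
    exact ⟨⟨(v.length, z), e1⟩, e2⟩

end Pool.Agent.MP_61ef33_al.Air
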