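import Pool.Agent.MP_61ef33_al.Air.St

set_option autoImplicit false

namespace Pool.Agent.MP_61ef33_al.Air

open scoped commutatorElement

section
variable {Γ : Type} [Group Γ] {k : ℕ} (A : SS Γ k)

theorem x_mem_Poly : A.x ∈ A.H := Subgroup.subset_closure (Set.mem_insert _ _)

theorem b_mem_Poly (i : Fin (k + 1)) : A.b i ∈ A.H :=
  Subgroup.subset_closure (Set.mem_insert_of_mem _ ⟨i, rfl⟩)

theorem sinv_Poly : A.s⁻¹ = A.s := inv_eq_of_mul_eq_one_right A.ss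

theorem cm_Poly (g h : Γ) : Commute (A.L g) (A.R h) := A.comm g h

theorem mul_Poly (a b c d : Γ) : A.L a * A.R b * (A.L c * A.R d) = A.L (a * c) * A.R (b * d) := by
  rw [map_mul, map_mul, mul_assoc, ← mul_assoc (A.R b), ← A.comm, mul_assoc, mul_assoc]

theorem inv_Poly (a b : Γ) : (A.L a * A.R b)⁻¹ = A.L a⁻¹ * A.R b⁻¹ := by
  rw [mul_inv_rev, ← map_inv, ← map_inv, A.comm]

theorem inj_Poly {a b c d : Γ} (h : A.L a * A.R b = A.L c * A.R d) : a = c ∧ b = d := by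
  have : A.L (a * c⁻¹) * A.R (b * d⁻¹) = 1 := by
    rw [← mul_Poly, ← inv_Poly, h, mul_inv_cancel]
  obtain ⟨h1, h2⟩ := A.inj _ _ this
  exact ⟨mul_inv_eq_one.1 h1, mul_inv_eq_one.1 h2⟩

theorem xx_Poly : A.x * A.x = A.L (A.b 0) * A.R (A.b 0) := by
  rw [A.hx, A.sL, mul_assoc, ← A.sL, ← mul_assoc A.s, A.ss, one_mul, A.comm]

theorem cj_Poly (g : Γ) : A.x⁻¹ * A.R g * A.x = A.L ((A.b 0)⁻¹ * g * A.b 0) := by
  rw [A.hx, mul_inv_rev, sinv_Poly, map_mul, map_mul, map_inv, mul_assoc _ A.s, A.sR]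
  simp only [mul_assoc]
  rw [← mul_assoc A.s, A.ss, one_mul]

theorem Rx_mem_Poly : A.R A.x ∈ A.H := A.hl ▸ b_mem_Poly A _

theorem Lc_mem_Poly : A.L ((A.b 0)⁻¹ * A.x * A.b 0) ∈ A.H := by
  rw [← cj_Poly]
  exact mul_mem (mul_mem (inv_mem (x_mem_Poly A)) (Rx_mem_Poly A)) (x_mem_Poly A)

/-- first coordinates of the elements of `H` -/
def PL_Poly : Subgroup Γ where
  carrier := {g | ∃ g', A.L g * A.R g' ∈ A.H}
  one_mem' := ⟨1, by simp [one_mem]⟩
  mul_mem' := fun ⟨a, ha⟩ ⟨b, hb⟩ => ⟨a * b, mul_Poly A _ _ _ _ ▸ mul_mem ha hb⟩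
  inv_mem' := fun ⟨a, ha⟩ => ⟨a⁻¹, inv_Poly A _ _ ▸ inv_mem ha⟩

theorem Lb_mem_Poly (i : Fin k) : A.L (A.b i.succ) ∈ A.H := A.hb i ▸ b_mem_Poly A _

theorem lift_Poly {h : Γ} (hh : h ∈ A.H) : ∃ h', A.L h * A.R h' ∈ A.H := by
  have hz : A.b 0 ∈ PL_Poly A :=
    ⟨A.b 0, xx_Poly A ▸ mul_mem (x_mem_Poly A) (x_mem_Poly A)⟩
  have : A.H ≤ PL_Poly A := by
    refine (Subgroup.closure_le _).2 ?_
    rintro g (rfl | ⟨i, rfl⟩)
    · have h1 : (A.b 0)⁻¹ * A.x * A.b 0 ∈ PL_Poly A := ⟨1, by simpa using Lc_mem_Poly A⟩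
      have h2 := mul_mem (mul_mem hz h1) (inv_mem hz)
      simpa [mul_assoc] using h2
    · refine Fin.cases hz (fun i => ?_) i
      exact ⟨1, by simpa using Lb_mem_Poly A i⟩
  exact this hh

theorem conjL_Poly (g h h' : Γ) :
    A.L (h * g * h⁻¹) = A.L h * A.R h' * A.L g * (A.L h * A.R h')⁻¹ := by
  have : A.L g = A.L g * A.R 1 := by simp
  rw [inv_Poly, this, mul_Poly, mul_Poly]
  simp

theorem Lx_mem_Poly : A.L A.x ∈ A.H := by
  obtain ⟨h', hh⟩ := lift_Poly A (b_mem_Poly A 0)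
  have := mul_mem (mul_mem hh (Lc_mem_Poly A)) (inv_mem hh)
  rw [← conjL_Poly] at this
  simpa [mul_assoc] using this

theorem KH_Poly : ⁅A.H, A.H⁆ ≤ A.H :=
  Subgroup.commutator_le.2 fun _ ha _ hb =>
    mul_mem (mul_mem (mul_mem ha hb) (inv_mem ha)) (inv_mem hb)

theorem Kc_Poly {u g : Γ} (hu : u ∈ A.H) (hg : g ∈ ⁅A.H, A.H⁆) : u * g * u⁻¹ ∈ ⁅A.H, A.H⁆ := by
  have := mul_mem (Subgroup.commutator_mem_commutator hu (KH_Poly A hg)) hg
  simpa [commutatorElement_def] using this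

theorem Sc_Poly {u g : Γ} (hu : u ∈ A.H) (hg : A.L g ∈ ⁅A.H, A.H⁆) :
    A.L (u * g * u⁻¹) ∈ ⁅A.H, A.H⁆ := by
  obtain ⟨h', hh⟩ := lift_Poly A hu
  rw [conjL_Poly A g u h']
  exact Kc_Poly A hh hg

theorem SN_Poly {g h : Γ} (hg : A.L g ∈ A.H) (hh : h ∈ A.H) : A.L ⁅g, h⁆ ∈ ⁅A.H, A.H⁆ := by
  obtain ⟨h', h1⟩ := lift_Poly A hh
  have e : A.L ⁅g, h⁆ = ⁅A.L g, A.L h * A.R h'⁆ := by
    have := conjL_Poly A g⁻¹ h h'
    rw [commutatorElement_def, commutatorElement_def, mul_assoc, mul_assoc, map_mul,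
      ← mul_assoc h, this, map_inv]
    simp only [mul_assoc]
  rw [e]
  exact Subgroup.commutator_mem_commutator hg h1

theorem key_Poly {h : Γ} (hh : h ∈ A.H) (hz : A.L ⁅A.b 0, h⁆ ∈ ⁅A.H, A.H⁆) {g : Γ}
    (hg : g ∈ A.H) : A.L ⁅g, h⁆ ∈ ⁅A.H, A.H⁆ := by
  induction hg using Subgroup.closure_induction with
  | mem g hg =>
    rcases hg with rfl | ⟨i, rfl⟩
    · exact SN_Poly A (Lx_mem_Poly A) hh
    · exact Fin.cases hz (fun i => SN_Poly A (Lb_mem_Poly A i) hh) i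
  | one => simp [one_mem]
  | mul a b ha _ iha ihb =>
    have e : ⁅a * b, h⁆ = a * ⁅b, h⁆ * a⁻¹ * ⁅a, h⁆ := by
      simp only [commutatorElement_def]; group
    rw [e, map_mul]
    exact mul_mem (Sc_Poly A ha ihb) iha
  | inv a ha iha =>
    have e : ⁅a⁻¹, h⁆ = a⁻¹ * ⁅a, h⁆⁻¹ * a⁻¹⁻¹ := by
      simp only [commutatorElement_def]; group
    rw [e]
    exact Sc_Poly A (inv_mem ha) (by rw [map_inv]; exact inv_mem iha)

theorem KL_Poly {g : Γ} (hg : g ∈ ⁅A.H, A.H⁆) : A.L g ∈ ⁅A.H, A.H⁆ := by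
  have : ⁅A.H, A.H⁆ ≤ (⁅A.H, A.H⁆ : Subgroup Γ).comap A.L := by
    refine Subgroup.commutator_le.2 fun a ha b hb => ?_
    refine key_Poly A hb ?_ ha
    have := key_Poly A (b_mem_Poly A 0) (by simp [one_mem]) hb
    rw [← commutatorElement_inv, map_inv]
    exact inv_mem this
  exact this hg

theorem KR_Poly {g : Γ} (hg : g ∈ ⁅A.H, A.H⁆) : A.R g ∈ ⁅A.H, A.H⁆ := by
  have h1 := Kc_Poly A (inv_mem (b_mem_Poly A 0)) hg
  rw [inv_inv] at h1
  have h2 := Kc_Poly A (x_mem_Poly A) (KL_Poly A h1)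
  rw [← cj_Poly] at h2
  simpa [mul_assoc] using h2

theorem ord_Poly (m : ℕ) (hm : 0 < m) : A.x ^ m ≠ 1 := by
  induction m using Nat.strong_induction_on with
  | _ m ih =>
    have e : ∀ j : ℕ, A.x ^ (2 * j) = A.L (A.b 0 ^ j) * A.R (A.b 0 ^ j) := fun j => by
      rw [pow_mul, sq, xx_Poly, (cm_Poly A _ _).mul_pow, map_pow, map_pow]
    intro h
    obtain ⟨j, rfl | rfl⟩ := Nat.even_or_odd' m
    · rw [e] at h
      have hb : ∀ i, A.b i ^ j = 1 := fun i => by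
        induction i using Fin.induction with
        | zero => exact (A.inj _ _ h).1
        | succ i ihi =>
          rw [A.hb, ← map_pow] at ihi
          exact (A.inj _ 1 (by rw [ihi, map_one, mul_one])).1
      have h1 := hb (Fin.last k)
      rw [A.hl, ← map_pow] at h1
      exact ih j (by omega) (by omega) (A.inj 1 _ (by rw [h1, map_one, mul_one])).2
    · rw [pow_succ, e, A.hx, A.sL, ← mul_assoc, mul_assoc (A.L _), ← map_mul,
        mul_eq_one_iff_eq_inv, sinv_Poly] at h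
      exact A.ns _ _ h

theorem h_Poly : ∃ h ∈ ⁅A.H, A.H⁆, Function.Injective fun m : ℕ => h ^ m := by
  refine ⟨⁅A.x⁻¹, A.R A.x⁆,
    Subgroup.commutator_mem_commutator (inv_mem (x_mem_Poly A)) (Rx_mem_Poly A), ?_⟩
  have hx : Function.Injective fun m : ℕ => A.x ^ m := by
    rw [injective_pow_iff_not_isOfFinOrder, isOfFinOrder_iff_pow_eq_one]
    exact fun ⟨m, hm, h⟩ => ord_Poly A m hm h
  intro m n h
  simp only [commutatorElement_def, inv_inv, cj_Poly] at h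
  rw [← map_inv, (cm_Poly A _ _).mul_pow, (cm_Poly A _ _).mul_pow, ← map_pow, ← map_pow,
    ← map_pow, ← map_pow] at h
  have := (inj_Poly A h).2
  rw [inv_pow, inv_pow, inv_inj] at this
  exact hx this

theorem ind_Poly (j : ℕ) : ∃ l : Fin j → Γ, (∀ i, l i ∈ ⁅A.H, A.H⁆) ∧
    Function.Injective fun e : Fin j → ℕ => (List.ofFn fun i => l i ^ e i).prod := by
  obtain ⟨h, hK, hi⟩ := h_Poly A
  induction j with
  | zero => exact ⟨fun i => i.elim0, fun i => i.elim0, fun a b _ => Subsingleton.elim a b⟩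
  | succ j ih =>
    obtain ⟨l, h1, h2⟩ := ih
    refine ⟨Fin.cons (A.L h) fun i => A.R (l i), fun i => ?_, fun a b hab => ?_⟩
    · exact Fin.cases (KL_Poly A hK) (fun i => KR_Poly A (h1 i)) i
    · have e : ∀ a : Fin (j + 1) → ℕ,
          (List.ofFn fun i => (Fin.cons (A.L h) fun i => A.R (l i) : Fin (j + 1) → Γ) i ^ a i).prod
            = A.L (h ^ a 0) * A.R (List.ofFn fun i => l i ^ a i.succ).prod := fun a => by
        rw [List.ofFn_succ, List.prod_cons, map_list_prod, List.map_ofFn, map_pow]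
        simp [Function.comp_def]
      simp only [e] at hab
      obtain ⟨e1, e2⟩ := inj_Poly A hab
      have e3 := h2 (a₁ := fun i => a i.succ) (a₂ := fun i => b i.succ) e2
      funext i
      exact Fin.cases (hi e1) (fun i => congrFun e3 i) i

end

theorem sPoly : SPoly := fun _ _ _ A _ j => by
  obtain ⟨l, h1, h2⟩ := ind_Poly A j
  exact ⟨l, fun i => KH_Poly A (h1 i), h2⟩

end Pool.Agent.MP_61ef33_al.Air
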