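import Pool.Agent.MP_61ef33_al.Defs2

/- Real centres with one negative postcritical point: definitions and statements of the steps. -/

set_option autoImplicit false

namespace Pool.Agent.MP_61ef33_al.Air

open Finset Polynomial
open scoped ENNReal

/-! ### Counting with summable weights -/

/-- the values of `φ` carry a summable weight that dominates `exp (- cost)` -/
def Sm {A X : Type} (φ : A → X) (c : A → ℝ) : Prop :=
  ∃ w : X → ℝ≥0∞, ∑' x, w x ≠ ⊤ ∧ ∀ a, ENNReal.ofReal (Real.exp (-c a)) ≤ w (φ a)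

theorem Sm.comp {A B X : Type} {φ : A → X} {c : A → ℝ} (h : Sm φ c) (g : B → A) :
    Sm (fun b => φ (g b)) fun b => c (g b) := by
  obtain ⟨w, h1, h2⟩ := h
  exact ⟨w, h1, fun b => h2 _⟩

theorem Sm.pair {A X Y : Type} {φ : A → X} {ψ : A → Y} {c c' : A → ℝ} (h : Sm φ c)
    (h' : Sm ψ c') : Sm (fun a => (φ a, ψ a)) fun a => c a + c' a := by
  obtain ⟨w, h1, h2⟩ := h
  obtain ⟨w', h1', h2'⟩ := h'
  refine ⟨fun p => w p.1 * w' p.2, ?_, fun a => ?_⟩
  · rw [ENNReal.tsum_prod']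
    simp only [ENNReal.tsum_mul_left, ENNReal.tsum_mul_right]
    exact ENNReal.mul_ne_top h1 h1'
  · rw [neg_add, Real.exp_add, ENNReal.ofReal_mul (Real.exp_pos _).le]
    exact mul_le_mul' (h2 a) (h2' a)

theorem Sm.fin {A X : Type} [Finite X] (φ : A → X) : Sm φ fun _ => 0 := by
  have := Fintype.ofFinite X
  exact ⟨fun _ => 1, by simp, fun a => by simp⟩

/-- `φ` is determined by `ψ`, the cost is larger up to a constant -/
theorem Sm.det {A X Y : Type} {φ : A → X} {ψ : A → Y} {c c' : A → ℝ} (h : Sm ψ c')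
    (hd : ∀ a a', ψ a = ψ a' → φ a = φ a') (C : ℝ) (hc : ∀ a, c' a ≤ c a + C) : Sm φ c := by
  classical
  obtain ⟨w, h1, h2⟩ := h
  refine ⟨fun x => ENNReal.ofReal (Real.exp C) *
    ∑' y, if ∃ a, ψ a = y ∧ φ a = x then w y else 0, ?_, fun a => ?_⟩
  · rw [ENNReal.tsum_mul_left, ENNReal.tsum_comm]
    refine ENNReal.mul_ne_top ENNReal.ofReal_ne_top
      (ne_top_of_le_ne_top h1 (ENNReal.tsum_le_tsum fun y => ?_))
    by_cases hy : ∃ a, ψ a = y
    · obtain ⟨a, rfl⟩ := hy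
      rw [tsum_eq_single (φ a)]
      · split_ifs <;> simp
      · exact fun x hx => if_neg fun ⟨a', e1, e2⟩ => hx (e2 ▸ hd _ _ e1)
    · simp [fun x => if_neg (c := ∃ a, ψ a = y ∧ φ a = x) (t := w y) (e := 0)
        fun ⟨a, e, _⟩ => hy ⟨a, e⟩]
  · refine le_trans ?_ (mul_le_mul' le_rfl (ENNReal.le_tsum (ψ a)))
    rw [if_pos ⟨a, rfl, rfl⟩]
    refine le_trans ?_ (mul_le_mul' le_rfl (h2 a))
    rw [← ENNReal.ofReal_mul (Real.exp_pos _).le, ← Real.exp_add]
    exact ENNReal.ofReal_le_ofReal (Real.exp_le_exp.2 (by linarith [hc a]))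

/-! ### Words -/

/-- exponent of the active generator, exponents of the others -/
abbrev T (k : ℕ) : Type := ℤ × (Fin (k + 1) → ℤ)

section words
variable {k : ℕ}

def wt (t : T k) : ℕ := t.1.natAbs + ∑ i, (t.2 i).natAbs

def Wt (W : List (T k)) : ℕ := (W.map wt).sum

def hf (p : Bool) (l : ℤ) : ℤ := if p then l / 2 else (l + 1) / 2

def od (l : ℤ) : Bool := decide (l % 2 = 1)

def par : List (T k) → Bool
  | [] => false
  | t :: W => xor (od t.1) (par W)

/-- head block and list of syllables of a section -/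
def D : Bool → List (T k) → (Fin (k + 1) → ℤ) × List (T k)
  | _, [] => (0, [])
  | p, t :: W =>
    if xor p (od t.1) then (Fin.cons (hf p t.1) (Fin.init t.2) + (D true W).1, (D true W).2)
    else if t.2 (Fin.last k) = 0 then (Pi.single 0 (hf p t.1) + (D false W).1, (D false W).2)
    else (Pi.single 0 (hf p t.1), (t.2 (Fin.last k), (D false W).1) :: (D false W).2)

/-- sections -/
def ch (p : Bool) (W : List (T k)) : List (T k) := (0, (D p W).1) :: (D p W).2

/-- syllables lost in one step -/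
def Z (W : List (T k)) : ℕ := W.countP fun t => t.2 (Fin.last k) = 0

/-- syllables lost in `d` steps -/
def Ls : ℕ → List (T k) → ℕ
  | 0, _ => 0
  | d + 1, W => Z W + Ls d (ch true W) + Ls d (ch false W)

/-- syllables lost between depth `j` and depth `j + m` -/
def Lk (m : ℕ) : ℕ → List (T k) → ℕ
  | 0, W => Ls m W
  | j + 1, W => Lk m j (ch true W) + Lk m j (ch false W)

def Md (k d i : ℕ) : ℤ := 2 ^ ((d + i) / (k + 2))

def res (d : ℕ) (t : T k) : T k := (t.1 % Md k d (k + 1), fun i => t.2 i % Md k d i)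

def reg (t : T k) : Bool := od t.1 && decide (t.2 (Fin.last k) ≠ 0)

/-- side information at the irregular places -/
def side (d : ℕ) : List (T k) → List (Option (T k × Bool))
  | [] => []
  | t :: W => (if reg t && W.head?.all reg then none
      else some (res d t, decide (t.2 (Fin.last k) = 0))) :: side d W

end words

/-- the wreath recursion -/
structure SS (Γ : Type) [Group Γ] (k : ℕ) where
  L : Γ →* Γ
  R : Γ →* Γ
  s : Γ
  x : Γ
  b : Fin (k + 1) → Γ
  comm : ∀ g h, L g * R h = R h * L g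
  ss : s * s = 1
  sL : ∀ g, s * L g = R g * s
  inj : ∀ g h, L g * R h = 1 → g = 1 ∧ h = 1
  ns : ∀ g h, L g * R h ≠ s
  hx : x = s * L (b 0)
  hb : ∀ i : Fin k, b i.castSucc = L (b i.succ)
  hl : b (Fin.last k) = R x

namespace SS
variable {Γ : Type} [Group Γ] {k : ℕ} (A : SS Γ k)

def B (e : Fin (k + 1) → ℤ) : Γ := (List.ofFn fun i => A.b i ^ e i).prod

def ev (W : List (T k)) : Γ := (W.map fun t => A.x ^ t.1 * A.B t.2).prod

def H : Subgroup Γ := Subgroup.closure (insert A.x (Set.range A.b))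

theorem sR (g : Γ) : A.s * A.R g = A.L g * A.s := by
  have := congrArg (fun u => A.s * u * A.s) (A.sL g)
  simp only [← mul_assoc, A.ss, one_mul] at this
  rw [this, mul_assoc _ A.s, A.ss, mul_one]

end SS

/-! ### The reflections -/

def ph (n : ℕ) (b : Bool) (j : ℕ) : ℕ :=
  if j = 0 then 0 else if b then min (j + 1) n else if j < n then 1 else 0

def r (n : ℕ) : List Bool → ℕ → List Bool
  | [], _ => []
  | b :: w, j => if j = 0 then (!b) :: w else b :: r n w (ph n b j)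

theorem r_r (n : ℕ) (w : List Bool) (j : ℕ) : r n (r n w j) j = w := by
  induction w generalizing j with
  | nil => rfl
  | cons b w ih => by_cases h : j = 0 <;> simp [r, h, ih]

theorem r_length (n : ℕ) (w : List Bool) (j : ℕ) : (r n w j).length = w.length := by
  induction w generalizing j with
  | nil => rfl
  | cons b w ih => by_cases h : j = 0 <;> simp [r, h, ih]

def Rf (n j : ℕ) : Equiv.Perm (List Bool) :=
  Function.Involutive.toPerm (fun w => r n w j) fun w => r_r n w j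

theorem Rf_apply (n j : ℕ) (w : List Bool) : Rf n j w = r n w j := rfl

theorem Rf_mul_self (n j : ℕ) : Rf n j * Rf n j = 1 := Equiv.ext fun w => r_r n w j

/-- the even subgroup -/
def Ev (n : ℕ) : Subgroup (Equiv.Perm (List Bool)) :=
  Subgroup.closure {g | ∃ i ≤ n, ∃ j ≤ n, g = Rf n i * Rf n j}

/-! ### The real picture -/

/-- the postcritical points in increasing order `p 1 = c < p 2 = 0 < ... < p n` -/
structure Ord (n : ℕ) (c : ℝ) (p : ℕ → ℝ) : Prop where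
  two : 2 ≤ n
  one : p 1 = c
  zero : p 2 = 0
  lt : ∀ i j, 1 ≤ i → i < j → j ≤ n → p i < p j
  nx : ∀ j, 1 ≤ j → j < n → p (j + 1) ^ 2 + c = p j
  top : c ^ 2 + c = p n

/-- the intervals between the points -/
def Iv (n : ℕ) (p : ℕ → ℝ) (j : ℕ) : Set ℝ := {x | (j ≠ 0 → p j < x) ∧ (j ≠ n → x < p (j + 1))}

/-- two half planes glued along an interval -/
def O (n : ℕ) (p : ℕ → ℝ) (j : ℕ) : Set ℂ := {z | z.im = 0 → z.re ∈ Iv n p j}

def qc (c : ℝ) (z : ℂ) : ℂ := z ^ 2 + c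

/-- the side of a first preimage -/
noncomputable def sd (j : ℕ) (w : ℂ) : Bool := decide (0 < if j = 0 then w.im else w.re)

/-- the label of a preimage of a point of `O j`, continued to the upper half plane -/
noncomputable def U (n : ℕ) (c : ℝ) : ℕ → ℕ → ℂ → List Bool
  | 0, _, _ => []
  | m + 1, j, z => sd j ((qc c)^[m] z) ::
      if sd j ((qc c)^[m] z) then U n c m (ph n true j) z
      else r n (U n c m (ph n false j) z) (ph n false j)

/-- the hypothesis on the critical orbit -/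
def Cen (n : ℕ) (c : ℝ) : Prop := (fun x : ℝ => x ^ 2 + c)^[n] 0 = 0 ∧
  ∀ j, 2 ≤ j → j < n → 0 < (fun x : ℝ => x ^ 2 + c)^[j] 0

theorem ph_le {n j : ℕ} (b : Bool) (hn : 1 ≤ n) : ph n b j ≤ n := by
  unfold ph; split_ifs <;> omega

theorem U_length (n : ℕ) (c : ℝ) (m j : ℕ) (z : ℂ) : (U n c m j z).length = m := by
  induction m generalizing j with
  | zero => rfl
  | succ m ih => simp only [U]; split_ifs <;> simp [ih, r_length]

theorem Ord.le {n : ℕ} {c : ℝ} {p : ℕ → ℝ} (h : Ord n c p) {i j : ℕ} (hi : 1 ≤ i) (hij : i ≤ j)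
    (hj : j ≤ n) : p i ≤ p j := by
  rcases hij.eq_or_lt with rfl | e
  · exact le_rfl
  · exact (h.lt i j hi e hj).le

/-- the Markov property -/
theorem Ord.markov {n : ℕ} {c : ℝ} {p : ℕ → ℝ} (h : Ord n c p) {j : ℕ} (hj : j ≤ n) {w : ℂ}
    (hw : qc c w ∈ O n p j) :
    (if j = 0 then w.im else w.re) ≠ 0 ∧ w ∈ O n p (ph n (sd j w) j) := by
  have h2 := h.two
  have e1 : (qc c w).im = 2 * w.re * w.im := by simp [qc, sq]; ring
  have e2 : (qc c w).re = w.re ^ 2 - w.im ^ 2 + c := by simp [qc, sq]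
  have hc : c < 0 := by rw [← h.one, ← h.zero]; exact h.lt 1 2 le_rfl (by omega) h2
  have hp : ∀ i, 2 ≤ i → i ≤ n → 0 ≤ p i := fun i a b => h.zero ▸ h.le (by omega) a b
  by_cases h0 : j = 0
  · subst h0
    have : w.im ≠ 0 := fun e => by
      have := (hw (by rw [e1, e, mul_zero])).2 (by omega)
      rw [e2, e, zero_add, h.one] at this
      nlinarith [sq_nonneg w.re]
    exact ⟨by simpa using this, fun e => absurd e this⟩
  have hre : w.re ≠ 0 := fun e => by
    have a := (hw (by rw [e1, e]; ring)).1 h0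
    have b := h.le (i := 1) (j := j) le_rfl (by omega) hj
    rw [e2, e] at a
    rw [h.one] at b
    nlinarith [sq_nonneg w.im]
  refine ⟨by simpa [h0] using hre, fun e => ?_⟩
  obtain ⟨a1, a2⟩ := hw (by rw [e1, e, mul_zero])
  replace a1 := a1 h0
  rw [e2, e] at a1 a2
  have ht := h.top
  have hn : p n < -c := by
    have b1 := h.nx (n - 1) (by omega) (by omega)
    have b2 := h.lt (n - 1) n (by omega) (by omega) le_rfl
    rw [Nat.sub_add_cancel (by omega)] at b1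
    nlinarith [hp n h2 le_rfl]
  by_cases hs : 0 < w.re
  · have : ph n (sd j w) j = min (j + 1) n := by simp [ph, sd, h0, hs]
    rw [this]
    rcases hj.eq_or_lt with rfl | hj'
    · rw [min_eq_right (by omega)]
      exact ⟨fun _ => by nlinarith, fun q => absurd rfl q⟩
    · rw [min_eq_left (by omega)]
      have b1 := h.nx j (by omega) hj'
      refine ⟨fun _ => by nlinarith [hp (j + 1) (by omega) hj'], fun q => ?_⟩
      have b2 := h.nx (j + 1) (by omega) (by omega)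
      nlinarith [hp (j + 1 + 1) (by omega) (by omega), a2 hj'.ne]
  · have hs' : w.re < 0 := lt_of_le_of_ne (not_lt.1 hs) hre
    rcases hj.eq_or_lt with rfl | hj'
    · have : ph j (sd j w) j = 0 := by simp [ph, sd, h0, hs]
      rw [this]
      exact ⟨fun q => absurd rfl q, fun _ => by rw [zero_add, h.one]; nlinarith⟩
    · have : ph n (sd j w) j = 1 := by simp [ph, sd, h0, hs, hj']
      rw [this]
      have b1 := h.le (i := j + 1) (j := n) (by omega) hj' le_rfl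
      exact ⟨fun _ => by rw [h.one]; nlinarith [a2 hj'.ne], fun _ => by rw [h.zero]; exact hs'⟩

/-! ### Statements -/

def SSparse : Prop := ∀ (X : Type) (x0 : X) (v : X → ℕ),
  ∑' x, ENNReal.ofReal (Real.exp (-(v x : ℝ))) ≠ ⊤ → (∀ x, x ≠ x0 → 1 ≤ v x) →
  ∀ ε : ℝ, 0 < ε → ∃ K : ℝ, 0 ≤ K ∧
    Sm (fun l : List X => l) fun l => ε * l.length + K * ((l.map v).sum : ℕ)

def SSum : Prop := ∀ k : ℕ, ∑' t : T k, ENNReal.ofReal (Real.exp (-(wt t : ℝ))) ≠ ⊤

def SCount : Prop := ∀ (A X : Type) (φ : A → X) (c : A → ℝ), Sm φ c → ∃ K : ℝ, 0 ≤ K ∧ ∀ y : ℝ,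
  (φ '' {a | c a ≤ y}).Finite ∧ ((φ '' {a | c a ≤ y}).ncard : ℝ) ≤ K * Real.exp y

def SLen : Prop := ∀ (k : ℕ) (W : List (T k)), Wt (ch true W) + Wt (ch false W) ≤ Wt W ∧
  (ch true W).length + (ch false W).length + Z W = W.length + 2 ∧
  (∀ j m, Ls (j + m) W = Ls j W + Lk m j W) ∧ ∀ d, Ls d W ≤ W.length + 2 ^ (d + 1)

def SSide : Prop := ∀ k : ℕ, 1 ≤ k → ∀ (d : ℕ) (W : List (T k)), (side d W).length = W.length ∧
  (side d W).countP Option.isSome ≤ 6 * Ls 2 W + 2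

def SInj : Prop := ∀ (k d : ℕ) (W W' : List (T k)), side (d + 1) W = side (d + 1) W' →
  (∀ p, (ch p W).map (res d) = (ch p W').map (res d)) → W.map (res (d + 1)) = W'.map (res (d + 1))

def SRes : Prop := ∀ k : ℕ, 1 ≤ k → ∀ (d : ℕ) (ε : ℝ), 0 < ε → ∃ κ : ℝ, 0 ≤ κ ∧
  Sm (fun W : List (T k) => W.map (res d)) fun W => ε * W.length + κ * Ls (d + 1) W

def SId : Prop := ∀ k : ℕ, 1 ≤ k → ∀ ε : ℝ, 0 < ε → ∃ (m : ℕ) (κ : ℝ), 0 ≤ κ ∧
  Sm (fun W : List (T k) => W) fun W => ε * (Wt W + W.length) + κ * Ls m W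

def SEv : Prop := ∀ (Γ : Type) [Group Γ] (k : ℕ) (A : SS Γ k),
  (∀ (i : Fin (k + 1)) (z : ℤ), A.B (Pi.single i z) = A.b i ^ z) ∧ ∀ W : List (T k),
    A.ev W = A.L (A.ev (ch true W)) * A.R (A.ev (ch false W)) * if par W then A.s else 1

def SSub : Prop := ∀ (Γ : Type) [Group Γ] (k : ℕ) (A : SS Γ k), 1 ≤ k → ∀ δ : ℝ, 0 < δ →
  ∃ K : ℝ, ∀ N : ℕ, (A.ev '' {W | Wt W + W.length ≤ N}).Finite ∧
    ((A.ev '' {W | Wt W + W.length ≤ N}).ncard : ℝ) ≤ K * Real.exp (δ * N)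

def SPoly : Prop := ∀ (Γ : Type) [Group Γ] (k : ℕ) (A : SS Γ k), 1 ≤ k → ∀ j : ℕ,
  ∃ l : Fin j → Γ, (∀ i, l i ∈ A.H) ∧
    Function.Injective fun e : Fin j → ℕ => (List.ofFn fun i => l i ^ e i).prod

def SInt : Prop := ∀ (Γ : Type) [Group Γ] (k : ℕ) (A : SS Γ k), 1 ≤ k → IntermediateGrowth A.H

def SModel : Prop := ∀ k : ℕ, ∃ A : SS (Equiv.Perm (List Bool)) k, A.H = Ev (k + 2)

/-- local constancy, change of chart -/
def SLab : Prop := ∀ (n : ℕ) (c : ℝ) (p : ℕ → ℝ), Ord n c p → ∀ (m j : ℕ) (z : ℂ), j ≤ n →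
  (qc c)^[m] z ∈ O n p j → (∀ᶠ z' in nhds z, U n c m j z' = U n c m j z) ∧ ∀ i ≤ n,
    (0 < ((qc c)^[m] z).im → U n c m i z = U n c m j z) ∧
    (((qc c)^[m] z).im < 0 → U n c m i z = (Rf n i * Rf n j) (U n c m j z))

/-- the labels number the fibres -/
def SBij : Prop := ∀ (n : ℕ) (c : ℝ) (p : ℕ → ℝ), Ord n c p → ∀ (j : ℕ) (t : ℂ), j ≤ n →
  t ∈ O n p j → Function.Bijective fun v : {v : ℕ × ℂ // (qc c)^[v.1] v.2 = t} =>
    U n c v.1.1 j v.1.2

/-- `g` is the monodromy along `γ` in the chart `j` -/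
def Mon (n : ℕ) (c : ℝ) (j : ℕ) (γ : unitInterval → ℂ) (g : Equiv.Perm (List Bool)) : Prop :=
  ∀ (m : ℕ) (Γ : unitInterval → ℂ), Continuous Γ → (∀ τ, (qc c)^[m] (Γ τ) = γ τ) →
    U n c m j (Γ 1) = g (U n c m j (Γ 0))

def SMon : Prop := ∀ (n : ℕ) (c : ℝ) (p : ℕ → ℝ), Ord n c p → ∀ (j : ℕ) (t : ℂ), j ≤ n →
  t ∈ O n p j → (∀ γ : Path t t, (∀ τ i, 1 ≤ i → i ≤ n → γ τ ≠ p i) → ∃ g ∈ Ev n, Mon n c j γ g) ∧
    ∀ a ≤ n, ∀ b ≤ n, ∃ γ : Path t t, (∀ τ i, 1 ≤ i → i ≤ n → γ τ ≠ p i) ∧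
      Mon n c j γ (Rf n a * Rf n b)

def SLink : Prop := ∀ (n : ℕ) (c : ℝ) (p : ℕ → ℝ), Ord n c p →
  ∀ t ∉ postcrit (X ^ 2 + C (c : ℂ)), Nonempty (Ev n ≃* IMG (X ^ 2 + C (c : ℂ)) t)

def SOrd : Prop := ∀ n : ℕ, 3 ≤ n → (∃ c, Cen n c) ∧ ∀ c, Cen n c → ∃ p, Ord n c p

end Pool.Agent.MP_61ef33_al.Air
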